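import Pool.Agent.MP_12e089_an.LogS.Tree

set_option linter.unusedSectionVars false

/-!
The tree inequality along chains of sets of cuts.
-/

namespace Pool.Agent.MP_12e089_an.LogS

open Finset

variable {M L : Type} [Fintype M] [DecidableEq M] [Fintype L] [DecidableEq L]

lemma cs_inj {g : M → L} (hg : Function.Injective g) (v : M) (φ : M → ℝ) : cs g (g v) φ = φ v := by
  unfold cs
  rw [Finset.sum_eq_single v]
  · rw [if_pos rfl]
  · intro w _ hw
    rw [if_neg fun h => hw (hg h)]
  · intro h; exact absurd (Finset.mem_univ _) h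

lemma cs_none {g : M → L} {Q : L} (hQ : ∀ v, g v ≠ Q) (φ : M → ℝ) : cs g Q φ = 0 := by
  unfold cs
  exact Finset.sum_eq_zero fun v _ => if_neg (hQ v)

lemma pot_zero : pot 0 0 0 0 0 0 0 0 = 0 := by
  simp [pot, dev, pos]

lemma min_add_pos (a b : ℝ) : min a b + pos (a - b) = a := by
  rcases le_total a b with h | h
  · rw [min_eq_left h, pos_of_nonpos (by linarith), add_zero]
  · rw [min_eq_right h, pos_of_nonneg (by linarith)]; ring

/-- The state at the finest level. -/
theorem base {S T : M → ℝ} (hS : ∀ v, 0 ≤ S v) (hT : ∀ v, 0 ≤ T v) {g : M → L}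
    (hg : Function.Injective g) :
    ∃ st : State S T g, ∀ χ : M → ℝ, (∀ v, χ v = 0 ∨ χ v = 1) → ∑ P, st.cellPot χ P ≤ 0 := by
  have hcs : ∀ (Q : L) (a b : M → ℝ), cs g Q (fun v => pos (a v - b v)) =
      pos (cs g Q a - cs g Q b) := by
    intro Q a b
    by_cases hQ : ∃ v, g v = Q
    · obtain ⟨v, rfl⟩ := hQ
      rw [cs_inj hg, cs_inj hg, cs_inj hg]
    · push Not at hQ
      rw [cs_none hQ, cs_none hQ, cs_none hQ, sub_self, pos_zero]
  refine ⟨⟨fun v w => if v = w then min (S v) (T v) else 0, fun v => pos (S v - T v),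
    fun v => pos (T v - S v), ?_, fun v => pos_nonneg _, fun v => pos_nonneg _, ?_, ?_, ?_,
    fun Q => hcs Q S T, fun Q => hcs Q T S⟩, ?_⟩
  · intro v w
    split_ifs
    · exact le_min (hS v) (hT v)
    · exact le_rfl
  · intro v
    rw [Finset.sum_ite_eq, if_pos (Finset.mem_univ _), min_add_pos]
  · intro w
    have : ∀ v, (if v = w then min (S v) (T v) else 0) = if v = w then min (S w) (T w) else 0 := by
      intro v
      by_cases h : v = w
      · rw [h]
      · rw [if_neg h, if_neg h]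
    rw [Finset.sum_congr rfl fun v _ => this v, Finset.sum_ite_eq', if_pos (Finset.mem_univ _),
      min_comm, min_add_pos]
  · intro v w h
    by_cases hvw : v = w
    · rw [hvw]
    · exact absurd (if_neg hvw) h
  · intro χ hχ
    apply Finset.sum_nonpos
    intro Q _
    by_cases hQ : ∃ v, g v = Q
    · obtain ⟨v, rfl⟩ := hQ
      have hf1 : fl g (g v) (fun v w => if v = w then min (S v) (T v) else 0) χ
          (fun v => 1 - χ v) = 0 := by
        unfold fl
        rw [cs_inj hg]
        apply Finset.sum_eq_zero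
        intro w _
        by_cases h : v = w
        · subst h
          rcases hχ v with h0 | h0 <;> simp [h0]
        · simp [h]
      have hf2 : fl g (g v) (fun v w => if v = w then min (S v) (T v) else 0)
          (fun v => 1 - χ v) χ = 0 := by
        unfold fl
        rw [cs_inj hg]
        apply Finset.sum_eq_zero
        intro w _
        by_cases h : v = w
        · subst h
          rcases hχ v with h0 | h0 <;> simp [h0]
        · simp [h]
      unfold State.cellPot
      dsimp only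
      rw [hf1, hf2]
      simp only [cs_inj hg]
      rcases hχ v with h0 | h0
      · simp [h0, pot, dev, pos_zero]
      · rw [h0]
        simp only [one_mul]
        have e1 : ∀ a : ℝ, 1 / 2 * (a / a * (1 - a / a)) = 0 := by
          intro a
          rcases eq_or_ne a 0 with h | h
          · simp [h]
          · simp [div_self h]
        have e2 : dev (S v) (T v) (S v) (T v) (pos (S v - T v)) (pos (T v - S v)) = 0 := by
          unfold dev
          have e3 : ∀ a b : ℝ, 0 ≤ a → 0 ≤ b → pos (a - b) - a / a * pos (a - b) = 0 := by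
            intro a b ha hb
            rcases eq_or_ne a 0 with h | h
            · rw [h, pos_of_nonpos (by linarith)]; simp
            · rw [div_self h]; ring
          rw [e3 _ _ (hS v) (hT v), e3 _ _ (hT v) (hS v), sub_zero]
        unfold pot
        rw [e1, e1, e2]
        simp [pos_zero]
    · push Not at hQ
      unfold State.cellPot fl
      simp only [cs_none hQ]
      rw [pot_zero]

/-- The state at the coarsest level gives a transport plan. -/
theorem top {S T : M → ℝ} (hST : ∑ v, S v = ∑ v, T v) {g : M → L} {P : L} (hg : ∀ v, g v = P)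
    (st : State S T g) :
    (∀ v, ∑ w, st.π v w = S v) ∧ (∀ w, ∑ v, st.π v w = T w) ∧
    ∀ χ : M → ℝ, (∀ v, χ v = 0 ∨ χ v = 1) →
      ∑ v, ∑ w, st.π v w * |χ v - χ w| ≤
        |∑ v, χ v * S v - ∑ v, χ v * T v| + 2 * ∑ Q, st.cellPot χ Q := by
  have hcs : ∀ φ : M → ℝ, cs g P φ = ∑ v, φ v := by
    intro φ
    unfold cs
    exact Finset.sum_congr rfl fun v _ => if_pos (hg v)
  have hσ : ∀ v, st.σ v = 0 := by
    intro v
    apply cs_eq_zero st.σ0 _ (hg v)
    rw [st.ls, hcs, hcs, hST, sub_self, pos_zero]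
  have hτ : ∀ v, st.τ v = 0 := by
    intro v
    apply cs_eq_zero st.τ0 _ (hg v)
    rw [st.lt, hcs, hcs, hST, sub_self, pos_zero]
  refine ⟨fun v => by have := st.row v; rwa [hσ, add_zero] at this,
    fun w => by have := st.col w; rwa [hτ, add_zero] at this, ?_⟩
  intro χ hχ
  have hne : ∀ Q, Q ≠ P → st.cellPot χ Q = 0 := by
    intro Q hQ
    have hQ' : ∀ v, g v ≠ Q := fun v h => hQ (h ▸ hg v)
    unfold State.cellPot fl
    simp only [cs_none hQ']
    rw [pot_zero]
  rw [Finset.sum_eq_single P (fun Q _ hQ => hne Q hQ)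
    (fun h => absurd (Finset.mem_univ _) h)]
  set A := fl g P st.π χ (fun v => 1 - χ v) with hA
  set B := fl g P st.π (fun v => 1 - χ v) χ with hB
  have hcons := conserve st.row st.col st.loc χ P
  rw [← hA, ← hB, hcs, hcs, hcs, hcs] at hcons
  have e0 : ∑ v, χ v * st.σ v = 0 := Finset.sum_eq_zero fun v _ => by rw [hσ, mul_zero]
  have e0' : ∑ v, χ v * st.τ v = 0 := Finset.sum_eq_zero fun v _ => by rw [hτ, mul_zero]
  rw [e0, e0'] at hcons
  have hpot : st.cellPot χ P = min B A := by
    unfold State.cellPot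
    rw [← hA, ← hB]
    simp only [hcs]
    rw [e0, e0', hST]
    simp [pot, dev, pos_zero]
  have hAB : ∑ v, ∑ w, st.π v w * |χ v - χ w| = A + B := by
    rw [hA, hB]
    unfold fl
    rw [hcs, hcs, ← Finset.sum_add_distrib]
    refine Finset.sum_congr rfl fun v _ => ?_
    rw [← Finset.sum_add_distrib]
    refine Finset.sum_congr rfl fun w _ => ?_
    rcases hχ v with h1 | h1 <;> rcases hχ w with h2 | h2 <;> simp [h1, h2]
  rw [hAB, hpot]
  have hd : ∑ v, χ v * S v - ∑ v, χ v * T v = A - B := by linarith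
  rw [hd]
  rcases le_total B A with h | h
  · rw [min_eq_left h, abs_of_nonneg (by linarith)]; linarith
  · rw [min_eq_right h, abs_of_nonpos (by linarith)]; linarith

/-! ### Sets of cuts -/

variable {Ω : Type} [Fintype Ω] [DecidableEq Ω]

/-- The restriction of a code to `J`. -/
def mask (J : Finset Ω) (q : Ω → Bool) : Ω → Bool := fun ω => if ω ∈ J then q ω else false

lemma mask_mask {J J' : Finset Ω} (h : J ⊆ J') (q : Ω → Bool) : mask J (mask J' q) = mask J q := by
  funext ω
  unfold mask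
  by_cases h1 : ω ∈ J
  · rw [if_pos h1, if_pos h1, if_pos (h h1)]
  · rw [if_neg h1, if_neg h1]

lemma mask_univ (q : Ω → Bool) : mask Finset.univ q = q := by
  funext ω
  simp [mask]

lemma mask_empty (q : Ω → Bool) : mask (∅ : Finset Ω) q = fun _ => false := by
  funext ω
  simp [mask]

lemma mask_eq_iff {J : Finset Ω} {q q' : Ω → Bool} :
    mask J q = mask J q' ↔ ∀ ω ∈ J, q ω = q' ω := by
  constructor
  · intro h ω hω
    have := congrFun h ω
    simpa [mask, hω] using this
  · intro h
    funext ω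
    unfold mask
    by_cases h1 : ω ∈ J
    · rw [if_pos h1, if_pos h1, h ω h1]
    · rw [if_neg h1, if_neg h1]

/-- The indicator of a cut. -/
def ind (en : M → Ω → Bool) (ω : Ω) (v : M) : ℝ := if en v ω then 1 else 0

lemma ind_zero_one (en : M → Ω → Bool) (ω : Ω) (v : M) : ind en ω v = 0 ∨ ind en ω v = 1 := by
  unfold ind
  split_ifs
  · exact Or.inr rfl
  · exact Or.inl rfl

/-- The distance of the features for the pair of levels `J ⊆ J'` and the cut `ω`. -/
noncomputable def xp (en : M → Ω → Bool) (S T : M → ℝ) (J J' : Finset Ω) (ω : Ω) : ℝ :=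
  xd S T (fun v => mask J' (en v)) (mask J) (ind en ω)

/-- There is a state at level `J` with potentials at most `c`. -/
def HasSt (en : M → Ω → Bool) (S T : M → ℝ) (J : Finset Ω) (c : Ω → ℝ) : Prop :=
  ∃ st : State S T (fun v => mask J (en v)), ∀ ω, ∑ P, st.cellPot (ind en ω) P ≤ c ω

lemma HasSt.step {en : M → Ω → Bool} {S T : M → ℝ} (hS : ∀ v, 0 ≤ S v) (hT : ∀ v, 0 ≤ T v)
    {J J' : Finset Ω} (hJ : J ⊆ J') {c : Ω → ℝ} (h : HasSt en S T J' c) :
    HasSt en S T J (fun ω => c ω + 3 / 2 * xp en S T J J' ω) := by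
  obtain ⟨st, hst⟩ := h
  obtain ⟨st', hst'⟩ := LogS.step hS hT st (mask J)
  have e : (fun v => mask J (mask J' (en v))) = fun v => mask J (en v) := by
    funext v; exact mask_mask hJ _
  have : ∃ st' : State S T (fun v => mask J (mask J' (en v))),
      ∀ ω, ∑ P, st'.cellPot (ind en ω) P ≤ c ω + 3 / 2 * xp en S T J J' ω := by
    refine ⟨st', fun ω => (hst' (ind en ω) ?_).trans (add_le_add (hst ω) le_rfl)⟩
    intro v
    rcases ind_zero_one en ω v with h0 | h0 <;> rw [h0] <;> norm_num
  rw [e] at this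
  exact this

lemma HasSt.base {en : M → Ω → Bool} (hen : Function.Injective en) {S T : M → ℝ}
    (hS : ∀ v, 0 ≤ S v) (hT : ∀ v, 0 ≤ T v) : HasSt en S T Finset.univ (fun _ => 0) := by
  have hg : Function.Injective (fun v => mask Finset.univ (en v)) := by
    intro v w h
    simp only [mask_univ] at h
    exact hen h
  obtain ⟨st, hst⟩ := LogS.base hS hT hg
  exact ⟨st, fun ω => hst _ (ind_zero_one en ω)⟩

lemma HasSt.top {en : M → Ω → Bool} {S T : M → ℝ} (hST : ∑ v, S v = ∑ v, T v) {c : Ω → ℝ}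
    (h : HasSt en S T ∅ c) :
    ∃ π : M → M → ℝ, (∀ v w, 0 ≤ π v w) ∧ (∀ v, ∑ w, π v w = S v) ∧ (∀ w, ∑ v, π v w = T w) ∧
      ∀ ω, ∑ v, ∑ w, π v w * |ind en ω v - ind en ω w| ≤
        |∑ v, ind en ω v * S v - ∑ v, ind en ω v * T v| + 2 * c ω := by
  obtain ⟨st, hst⟩ := h
  obtain ⟨h1, h2, h3⟩ := LogS.top hST (P := fun _ => false) (fun v => mask_empty _) st
  refine ⟨st.π, st.π0, h1, h2, fun ω => (h3 _ (ind_zero_one en ω)).trans ?_⟩
  have := hst ω
  linarith

/-- The sum along the binary chain `k, ⌊k/2⌋, ⌊k/4⌋, …, 0`. -/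
noncomputable def chainSum (X : ℕ → ℕ → ℝ) (k : ℕ) : ℝ :=
  if _h : k = 0 then 0 else chainSum X (k / 2) + X (k / 2) k
termination_by k
decreasing_by omega

lemma chainSum_zero (X : ℕ → ℕ → ℝ) : chainSum X 0 = 0 := by
  rw [chainSum]; simp

lemma chainSum_pos (X : ℕ → ℕ → ℝ) {k : ℕ} (hk : k ≠ 0) :
    chainSum X k = chainSum X (k / 2) + X (k / 2) k := by
  rw [chainSum]; simp [hk]

lemma HasSt.chain {en : M → Ω → Bool} {S T : M → ℝ} (hS : ∀ v, 0 ≤ S v) (hT : ∀ v, 0 ≤ T v)
    (J : ℕ → Finset Ω) (hJ : Monotone J) (k : ℕ) : ∀ {c : Ω → ℝ}, HasSt en S T (J k) c →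
    HasSt en S T (J 0) (fun ω => c ω + 3 / 2 * chainSum (fun a b => xp en S T (J a) (J b) ω) k) := by
  induction k using Nat.strong_induction_on with
  | _ k ih =>
    intro c h
    by_cases hk : k = 0
    · subst hk
      simp only [chainSum_zero, mul_zero, add_zero]
      exact h
    · have h1 := h.step hS hT (hJ (Nat.div_le_self k 2))
      have h2 := ih (k / 2) (by omega) h1
      refine Eq.mp ?_ h2
      congr 1
      funext ω
      rw [chainSum_pos _ hk]
      ring

/-- The tree inequality for the binary chain. -/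
theorem tree_ineq {en : M → Ω → Bool} (hen : Function.Injective en) {S T : M → ℝ}
    (hS : ∀ v, 0 ≤ S v) (hT : ∀ v, 0 ≤ T v) (hST : ∑ v, S v = ∑ v, T v)
    (J : ℕ → Finset Ω) (hJ : Monotone J) (h0 : J 0 = ∅) (k : ℕ) :
    ∃ π : M → M → ℝ, (∀ v w, 0 ≤ π v w) ∧ (∀ v, ∑ w, π v w = S v) ∧ (∀ w, ∑ v, π v w = T w) ∧
      ∀ ω, ∑ v, ∑ w, π v w * |ind en ω v - ind en ω w| ≤
        |∑ v, ind en ω v * S v - ∑ v, ind en ω v * T v| +
        3 * (chainSum (fun a b => xp en S T (J a) (J b) ω) k + xp en S T (J k) Finset.univ ω) := by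
  have h1 := (HasSt.base hen hS hT).step hS hT (Finset.subset_univ (J k))
  have h2 := h1.chain hS hT J hJ k
  rw [h0] at h2
  obtain ⟨π, p0, p1, p2, p3⟩ := h2.top hST
  refine ⟨π, p0, p1, p2, fun ω => (p3 ω).trans (le_of_eq ?_)⟩
  ring

end Pool.Agent.MP_12e089_an.LogS
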