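import Pool.Agent.MP_12e089_an.LogS.Rand

set_option linter.unusedSectionVars false

/-!
The total feature distance: lower and upper bound.
-/

namespace Pool.Agent.MP_12e089_an.LogS

open Finset

/-! ### Sums over binary blocks -/

/-- The weighted sum over `1 ≤ k < 2^Q` of `X (k/2) k`, with weight `2^{-⌊log₂ k⌋}`. -/
noncomputable def wsum (X : ℕ → ℕ → ℝ) (Q : ℕ) : ℝ :=
  ∑ j ∈ Finset.range Q, 1 / 2 ^ j * ∑ k ∈ Finset.Ico (2 ^ j) (2 ^ (j + 1)), X (k / 2) k

lemma sum_half (F : ℕ → ℝ) (n : ℕ) :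
    ∑ k ∈ Finset.range (2 * n), F (k / 2) = 2 * ∑ k ∈ Finset.range n, F k := by
  induction n with
  | zero => simp
  | succ n ih =>
    have e : 2 * (n + 1) = 2 * n + 1 + 1 := by ring
    rw [e, Finset.sum_range_succ, Finset.sum_range_succ, ih, Finset.sum_range_succ]
    have e1 : (2 * n + 1) / 2 = n := by omega
    have e2 : 2 * n / 2 = n := by omega
    rw [e1, e2]
    ring

lemma sum_half_Ico (F : ℕ → ℝ) {a b : ℕ} (hab : a ≤ b) :
    ∑ k ∈ Finset.Ico (2 * a) (2 * b), F (k / 2) = 2 * ∑ k ∈ Finset.Ico a b, F k := by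
  rw [Finset.sum_Ico_eq_sub _ (by omega), Finset.sum_Ico_eq_sub _ hab, sum_half, sum_half]
  ring

lemma sum_blocks (A : ℕ → ℝ) (Q : ℕ) :
    ∑ j ∈ Finset.range Q, ∑ k ∈ Finset.Ico (2 ^ j) (2 ^ (j + 1)), A k =
      ∑ k ∈ Finset.Ico 1 (2 ^ Q), A k := by
  induction Q with
  | zero => simp
  | succ Q ih =>
    rw [Finset.sum_range_succ, ih]
    exact Finset.sum_Ico_consecutive A (Nat.one_le_two_pow) (Nat.pow_le_pow_right (by norm_num)
      (Nat.le_succ Q))

lemma chain_wsum (X : ℕ → ℕ → ℝ) (q : ℕ) :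
    ∑ k ∈ Finset.Ico (2 ^ q) (2 ^ (q + 1)), chainSum X k = 2 ^ q * wsum X (q + 1) := by
  induction q with
  | zero =>
    have e : Finset.Ico (2 ^ 0) (2 ^ (0 + 1)) = {1} := by decide
    unfold wsum
    rw [e, Finset.sum_singleton, chainSum_pos X one_ne_zero]
    have e1 : 1 / 2 = 0 := by norm_num
    rw [e1, chainSum_zero, Finset.sum_range_succ, Finset.sum_range_zero, e, Finset.sum_singleton]
    simp
  | succ q ih =>
    have h1 : ∀ k ∈ Finset.Ico (2 ^ (q + 1)) (2 ^ (q + 1 + 1)),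
        chainSum X k = chainSum X (k / 2) + X (k / 2) k := by
      intro k hk
      apply chainSum_pos
      have := (Finset.mem_Ico.1 hk).1
      have h2 : 1 ≤ 2 ^ (q + 1) := Nat.one_le_two_pow
      omega
    rw [Finset.sum_congr rfl h1, Finset.sum_add_distrib]
    have e1 : 2 ^ (q + 1) = 2 * 2 ^ q := by ring
    have e2 : 2 ^ (q + 1 + 1) = 2 * 2 ^ (q + 1) := by ring
    have h3 : ∑ k ∈ Finset.Ico (2 ^ (q + 1)) (2 ^ (q + 1 + 1)), chainSum X (k / 2) =
        2 * ∑ k ∈ Finset.Ico (2 ^ q) (2 ^ (q + 1)), chainSum X k := by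
      rw [e2]
      nth_rewrite 1 [e1]
      exact sum_half_Ico (chainSum X) (Nat.pow_le_pow_right (by norm_num) (Nat.le_succ q))
    rw [h3, ih]
    have h4 : wsum X (q + 1 + 1) = wsum X (q + 1) +
        1 / 2 ^ (q + 1) * ∑ k ∈ Finset.Ico (2 ^ (q + 1)) (2 ^ (q + 1 + 1)), X (k / 2) k := by
      unfold wsum
      rw [Finset.sum_range_succ]
    rw [h4]
    have h5 : (2 : ℝ) ^ (q + 1) ≠ 0 := by positivity
    field_simp
    ring

lemma chainSum_tele (φ : ℕ → ℝ) (k : ℕ) : chainSum (fun a b => φ a - φ b) k = φ 0 - φ k := by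
  induction k using Nat.strong_induction_on with
  | _ k ih =>
    by_cases hk : k = 0
    · subst hk; rw [chainSum_zero]; ring
    · rw [chainSum_pos _ hk, ih (k / 2) (by omega)]; ring

lemma chainSum_sum {ι : Type*} (I : Finset ι) (X : ι → ℕ → ℕ → ℝ) (k : ℕ) :
    ∑ i ∈ I, chainSum (X i) k = chainSum (fun a b => ∑ i ∈ I, X i a b) k := by
  induction k using Nat.strong_induction_on with
  | _ k ih =>
    by_cases hk : k = 0
    · subst hk; simp [chainSum_zero]
    · rw [chainSum_pos _ hk, ← ih (k / 2) (by omega), ← Finset.sum_add_distrib]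
      refine Finset.sum_congr rfl fun i _ => ?_
      rw [chainSum_pos _ hk]

lemma card_block (q : ℕ) : (Finset.Ico (2 ^ q) (2 ^ (q + 1))).card = 2 ^ q := by
  rw [Nat.card_Ico]
  have : 2 ^ (q + 1) = 2 * 2 ^ q := by ring
  omega

lemma wsum_tele (φ : ℕ → ℝ) (φ' : ℝ) (q : ℕ) :
    wsum (fun a b => φ a - φ b) (q + 1) +
      1 / 2 ^ q * ∑ k ∈ Finset.Ico (2 ^ q) (2 ^ (q + 1)), (φ k - φ') = φ 0 - φ' := by
  have h := chain_wsum (fun a b => φ a - φ b) q
  have h1 : ∑ k ∈ Finset.Ico (2 ^ q) (2 ^ (q + 1)), chainSum (fun a b => φ a - φ b) k =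
      ∑ k ∈ Finset.Ico (2 ^ q) (2 ^ (q + 1)), (φ 0 - φ k) :=
    Finset.sum_congr rfl fun k _ => chainSum_tele φ k
  rw [h1] at h
  have h2 : wsum (fun a b => φ a - φ b) (q + 1) =
      1 / 2 ^ q * ∑ k ∈ Finset.Ico (2 ^ q) (2 ^ (q + 1)), (φ 0 - φ k) := by
    rw [h]; field_simp
  rw [h2, ← mul_add, ← Finset.sum_add_distrib]
  have h3 : ∀ k ∈ Finset.Ico (2 ^ q) (2 ^ (q + 1)), (φ 0 - φ k) + (φ k - φ') = φ 0 - φ' :=
    fun k _ => by ring
  rw [Finset.sum_congr rfl h3, Finset.sum_const, card_block, nsmul_eq_mul]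
  push_cast
  field_simp

lemma wsum_mono {X Y : ℕ → ℕ → ℝ} (Q : ℕ) (h : ∀ k, 1 ≤ k → k < 2 ^ Q → X (k / 2) k ≤ Y (k / 2) k) :
    wsum X Q ≤ wsum Y Q := by
  unfold wsum
  refine Finset.sum_le_sum fun j hj => ?_
  apply mul_le_mul_of_nonneg_left _ (by positivity)
  refine Finset.sum_le_sum fun k hk => ?_
  rw [Finset.mem_Ico] at hk
  have h1 : 1 ≤ 2 ^ j := Nat.one_le_two_pow
  have h2 : 2 ^ (j + 1) ≤ 2 ^ Q := Nat.pow_le_pow_right (by norm_num) (Finset.mem_range.1 hj)
  exact h k (by omega) (by omega)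

lemma wsum_add (X Y : ℕ → ℕ → ℝ) (Q : ℕ) :
    wsum (fun a b => X a b + Y a b) Q = wsum X Q + wsum Y Q := by
  unfold wsum
  rw [← Finset.sum_add_distrib]
  refine Finset.sum_congr rfl fun j _ => ?_
  rw [Finset.sum_add_distrib, mul_add]

lemma wsum_mul (X : ℕ → ℕ → ℝ) (c : ℝ) (Q : ℕ) :
    wsum (fun a b => c * X a b) Q = c * wsum X Q := by
  unfold wsum
  rw [Finset.mul_sum]
  refine Finset.sum_congr rfl fun j _ => ?_
  rw [← Finset.mul_sum]
  ring

lemma wsum_sum {ι : Type*} (I : Finset ι) (X : ι → ℕ → ℕ → ℝ) (Q : ℕ) :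
    ∑ i ∈ I, wsum (X i) Q = wsum (fun a b => ∑ i ∈ I, X i a b) Q := by
  unfold wsum
  rw [Finset.sum_comm]
  refine Finset.sum_congr rfl fun j _ => ?_
  rw [← Finset.mul_sum, Finset.sum_comm]

/-! ### The total distance -/

variable {M Ω : Type} [Fintype M] [DecidableEq M] [Fintype Ω] [DecidableEq Ω]

/-- The Hamming distance of the codes. -/
noncomputable def hm (en : M → Ω → Bool) (x y : M) : ℝ := ∑ ω, |ind en ω x - ind en ω y|

lemma hm_eq (en : M → Ω → Bool) (x y : M) : hm en x y = (sepS en x y).card := by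
  unfold hm sepS
  rw [Finset.card_filter]
  push_cast
  refine Finset.sum_congr rfl fun ω _ => ?_
  unfold ind
  cases en x ω <;> cases en y ω <;> simp

/-- The first moments. -/
noncomputable def bd (en : M → Ω → Bool) (S T : M → ℝ) : ℝ :=
  ∑ ω, |∑ v, ind en ω v * S v - ∑ v, ind en ω v * T v|

/-- The distance for one word. -/
noncomputable def tw (en : M → Ω → Bool) (S T : M → ℝ) (q : ℕ) (w : Fin (2 ^ (q + 1)) → Ω) : ℝ :=
  wsum (fun a b => ∑ ω, xp en S T (Jw w a) (Jw w b) ω) (q + 1) +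
    1 / 2 ^ q * ∑ k ∈ Finset.Ico (2 ^ q) (2 ^ (q + 1)), ∑ ω, xp en S T (Jw w k) Finset.univ ω

/-- The total distance. -/
noncomputable def tot (en : M → Ω → Bool) (S T : M → ℝ) (q : ℕ) : ℝ :=
  bd en S T + 1 / (Fintype.card (Fin (2 ^ (q + 1)) → Ω)) *
    ∑ w : Fin (2 ^ (q + 1)) → Ω, tw en S T q w

/-- The lower bound. -/
theorem lower {en : M → Ω → Bool} (hen : Function.Injective en) [Nonempty Ω] {S T : M → ℝ}
    (hS : ∀ v, 0 ≤ S v) (hT : ∀ v, 0 ≤ T v) (hST : ∑ v, S v = ∑ v, T v) (q : ℕ) :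
    ∃ π : M → M → ℝ, (∀ v w, 0 ≤ π v w) ∧ (∀ v, ∑ w, π v w = S v) ∧ (∀ w, ∑ v, π v w = T w) ∧
      ∑ v, ∑ w, π v w * hm en v w ≤ 3 * tot en S T q := by
  set W := Fin (2 ^ (q + 1)) → Ω with hW
  have hWpos : (0 : ℝ) < Fintype.card W := by
    have : 0 < Fintype.card W := Fintype.card_pos
    exact_mod_cast this
  -- cost of the pair `(w, k)`
  set c : W → ℕ → ℝ := fun w k => bd en S T +
    3 * (chainSum (fun a b => ∑ ω, xp en S T (Jw w a) (Jw w b) ω) k +
      ∑ ω, xp en S T (Jw w k) Finset.univ ω) with hc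
  have hbd : 0 ≤ bd en S T := Finset.sum_nonneg fun _ _ => abs_nonneg _
  have hsum : ∑ w : W, ∑ k ∈ Finset.Ico (2 ^ q) (2 ^ (q + 1)), c w k ≤
      ∑ w : W, ∑ k ∈ Finset.Ico (2 ^ q) (2 ^ (q + 1)), 3 * tot en S T q := by
    have h1 : ∀ w : W, ∑ k ∈ Finset.Ico (2 ^ q) (2 ^ (q + 1)), c w k =
        2 ^ q * (bd en S T + 3 * tw en S T q w) := by
      intro w
      simp only [hc]
      rw [Finset.sum_add_distrib, Finset.sum_const, card_block, nsmul_eq_mul, ← Finset.mul_sum,
        Finset.sum_add_distrib, chain_wsum]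
      unfold tw
      push_cast
      field_simp
    have h2 : ∑ w : W, 2 ^ q * (bd en S T + 3 * tw en S T q w) =
        2 ^ q * (Fintype.card W * (bd en S T) + 3 * ∑ w : W, tw en S T q w) := by
      rw [← Finset.mul_sum, Finset.sum_add_distrib, ← Finset.mul_sum, Finset.sum_const,
        Finset.card_univ, nsmul_eq_mul]
    rw [Finset.sum_congr rfl fun w _ => h1 w, h2]
    simp only [Finset.sum_const, card_block, Finset.card_univ, nsmul_eq_mul]
    push_cast
    unfold tot
    have h3 : (Fintype.card W : ℝ) * (2 ^ q * (3 * (bd en S T + 1 / (Fintype.card W) *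
        ∑ w : W, tw en S T q w))) =
        2 ^ q * (3 * Fintype.card W * bd en S T + 3 * ∑ w : W, tw en S T q w) := by
      field_simp
    rw [h3]
    apply mul_le_mul_of_nonneg_left _ (by positivity)
    have h4 : 0 ≤ (Fintype.card W : ℝ) * bd en S T := mul_nonneg hWpos.le hbd
    linarith
  have hne : (Finset.univ : Finset W).Nonempty := Finset.univ_nonempty
  obtain ⟨w, -, hw⟩ := Finset.exists_le_of_sum_le hne hsum
  have hne2 : (Finset.Ico (2 ^ q) (2 ^ (q + 1))).Nonempty := by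
    rw [Finset.nonempty_Ico]
    exact Nat.pow_lt_pow_right (by norm_num) (Nat.lt_succ_self q)
  obtain ⟨k, -, hk⟩ := Finset.exists_le_of_sum_le hne2 hw
  obtain ⟨π, p0, p1, p2, p3⟩ := tree_ineq hen hS hT hST (Jw w) (Jw_mono w) (Jw_zero w) k
  refine ⟨π, p0, p1, p2, ?_⟩
  refine le_trans ?_ hk
  have h5 : ∑ v, ∑ w, π v w * hm en v w =
      ∑ ω, ∑ v, ∑ w, π v w * |ind en ω v - ind en ω w| := by
    rw [Finset.sum_comm (s := (Finset.univ : Finset Ω))]
    refine Finset.sum_congr rfl fun v _ => ?_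
    rw [Finset.sum_comm (s := (Finset.univ : Finset Ω))]
    refine Finset.sum_congr rfl fun u _ => ?_
    unfold hm
    rw [Finset.mul_sum]
  rw [h5]
  refine (Finset.sum_le_sum fun ω _ => p3 ω).trans (le_of_eq ?_)
  simp only [hc]
  rw [Finset.sum_add_distrib, ← Finset.mul_sum, Finset.sum_add_distrib, chainSum_sum]
  rfl

/-! ### The upper bound -/

variable (en : M → Ω → Bool)

lemma Nn_anti {R : M → ℝ} (hR : ∀ v, 0 ≤ R v) {J J' : Finset Ω} (hJ : J ⊆ J') (x : M) :
    Nn en R J' x ≤ Nn en R J x := by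
  unfold Nn cs
  apply add_le_add _ le_rfl
  refine Finset.sum_le_sum fun v _ => ?_
  by_cases h : gJ en J' v = gJ en J' x
  · have h' : gJ en J v = gJ en J x := by
      unfold gJ at h ⊢
      rw [mask_eq_iff] at h ⊢
      exact fun ω hω => h ω (hJ hω)
    rw [if_pos h, if_pos h']
  · rw [if_neg h]
    split_ifs
    · exact hR v
    · exact le_rfl

lemma xp_add_le {R : M → ℝ} (hR : ∀ v, 0 ≤ R v) {J J' : Finset Ω} (hJ : J ⊆ J') (x : M) :
    ∑ ω, xp en (addPt R x) R J J' ω ≤ 2 * DD en R J x + 2 * DD en R J' x := by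
  unfold DD
  rw [Finset.mul_sum, Finset.mul_sum, ← Finset.sum_add_distrib]
  refine Finset.sum_le_sum fun ω _ => ?_
  have h := xd_add hR (fun v => mask J' (en v)) (mask J) (ind_zero_one en ω) x
  have e : (fun v => mask J (mask J' (en v))) = gJ en J := by
    funext v; exact mask_mask hJ _
  have e' : (fun v => mask J' (en v)) = gJ en J' := rfl
  unfold xp
  rw [e] at h
  exact h

lemma pair_le {R : M → ℕ} {s : ℕ} (hs : ∑ v, R v + 1 = s) {J J' : Finset Ω} (hJ : J ⊆ J')
    (x y : M) :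
    ∑ ω, xp en (addPt (fun v => (R v : ℝ)) x) (addPt (fun v => (R v : ℝ)) y) J J' ω ≤
      2 * hm en x y * (Real.log (Nn en (fun v => (R v : ℝ)) J x) -
        Real.log (Nn en (fun v => (R v : ℝ)) J' x)) +
      (if Sep en x y J' then 2 * DD en (fun v => (R v : ℝ)) J x + 2 * DD en (fun v => (R v : ℝ)) J' x
        + (2 * DD en (fun v => (R v : ℝ)) J y + 2 * DD en (fun v => (R v : ℝ)) J' y) else 0) := by
  have hR : ∀ v, 0 ≤ (fun v => (R v : ℝ)) v := fun v => Nat.cast_nonneg _
  have hhm : 0 ≤ hm en x y := Finset.sum_nonneg fun _ _ => abs_nonneg _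
  have n1 := Nn_pos en hR J x
  have n2 := Nn_pos en hR J' x
  have n3 := Nn_anti en hR hJ x
  by_cases hsep : Sep en x y J'
  · rw [if_pos hsep]
    have hlog : 0 ≤ Real.log (Nn en (fun v => (R v : ℝ)) J x) -
        Real.log (Nn en (fun v => (R v : ℝ)) J' x) :=
      sub_nonneg.2 (Real.log_le_log (by linarith) n3)
    have h0 : 0 ≤ 2 * hm en x y * (Real.log (Nn en (fun v => (R v : ℝ)) J x) -
        Real.log (Nn en (fun v => (R v : ℝ)) J' x)) := mul_nonneg (by linarith) hlog
    have hx := xp_add_le en hR hJ x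
    have hy := xp_add_le en hR hJ y
    have htri : ∑ ω, xp en (addPt (fun v => (R v : ℝ)) x) (addPt (fun v => (R v : ℝ)) y) J J' ω ≤
        ∑ ω, xp en (addPt (fun v => (R v : ℝ)) x) (fun v => (R v : ℝ)) J J' ω +
        ∑ ω, xp en (addPt (fun v => (R v : ℝ)) y) (fun v => (R v : ℝ)) J J' ω := by
      rw [← Finset.sum_add_distrib]
      refine Finset.sum_le_sum fun ω _ => ?_
      unfold xp
      have c1 : ∀ z : M, addPt (fun v => (R v : ℝ)) z =
          fun v => (((R v + if v = z then 1 else 0 : ℕ)) : ℝ) := by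
        intro z
        funext v
        unfold addPt
        push_cast
        rfl
      have s1 : ∀ z : M, ∑ v, (R v + if v = z then 1 else 0) ≤ s := by
        intro z
        rw [Finset.sum_add_distrib, Finset.sum_ite_eq', if_pos (Finset.mem_univ _), hs]
      have s2 : ∑ v, R v ≤ s := by omega
      rw [c1 x, c1 y]
      have key := xd_triangle (fun v => mask J' (en v)) (mask J) (ind en ω) (s1 x) s2 (s1 y)
      rw [xd_symm (fun v => (((R v + if v = y then 1 else 0 : ℕ)) : ℝ)) (fun v => (R v : ℝ))] at key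
      exact key
    linarith
  · rw [if_neg hsep, add_zero]
    have hg : gJ en J' x = gJ en J' y := not_sep en hsep
    have h1 : ∀ ω, xp en (addPt (fun v => (R v : ℝ)) x) (addPt (fun v => (R v : ℝ)) y) J J' ω ≤
        |ind en ω x - ind en ω y| * (2 * (Real.log (Nn en (fun v => (R v : ℝ)) J x) -
        Real.log (Nn en (fun v => (R v : ℝ)) J' x))) := by
      intro ω
      have h2 := xd_move hR (fun v => mask J' (en v)) (mask J) (ind en ω) hg
      have e : (fun v => mask J (mask J' (en v))) = gJ en J := by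
        funext v; exact mask_mask hJ _
      have e2 : mask J (mask J' (en x)) = gJ en J x := mask_mask hJ _
      rw [e, e2] at h2
      refine h2.trans ?_
      have h3 := Real.log_le_sub_one_of_pos (x := Nn en (fun v => (R v : ℝ)) J' x /
        Nn en (fun v => (R v : ℝ)) J x) (by positivity)
      rw [Real.log_div (by positivity) (by positivity)] at h3
      have h4 : 1 - (cs (fun v => mask J' (en v)) (mask J' (en x)) (fun v => (R v : ℝ)) + 1) /
          (cs (gJ en J) (gJ en J x) (fun v => (R v : ℝ)) + 1) ≤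
          Real.log (Nn en (fun v => (R v : ℝ)) J x) -
          Real.log (Nn en (fun v => (R v : ℝ)) J' x) := by
        have h5 : (cs (fun v => mask J' (en v)) (mask J' (en x)) (fun v => (R v : ℝ)) + 1) /
          (cs (gJ en J) (gJ en J x) (fun v => (R v : ℝ)) + 1) =
          Nn en (fun v => (R v : ℝ)) J' x / Nn en (fun v => (R v : ℝ)) J x := rfl
        rw [h5]
        linarith
      have h6 := mul_le_mul_of_nonneg_left h4 (by positivity :
        0 ≤ 2 * |ind en ω x - ind en ω y|)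
      linarith
    refine (Finset.sum_le_sum fun ω _ => h1 ω).trans (le_of_eq ?_)
    rw [← Finset.sum_mul]
    unfold hm
    ring

lemma DD_univ (hen : Function.Injective en) {R : M → ℝ} (x : M) : DD en R Finset.univ x = 0 := by
  unfold DD
  apply Finset.sum_eq_zero
  intro ω _
  unfold ot
  have h : cs (gJ en Finset.univ) (gJ en Finset.univ x)
      (fun v => R v * |ind en ω v - ind en ω x|) = 0 := by
    unfold cs
    apply Finset.sum_eq_zero
    intro v _
    split_ifs with h1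
    · have h2 : v = x := by
        unfold gJ at h1
        simp only [mask_univ] at h1
        exact hen h1
      subst h2
      simp
    · rfl
  rw [h, zero_div]

lemma sepS_comm (x y : M) : sepS en x y = sepS en y x := by
  unfold sepS
  ext ω
  simp only [Finset.mem_filter, Finset.mem_univ, true_and]
  exact ne_comm

lemma Sep_comm (x y : M) (J : Finset Ω) : Sep en x y J ↔ Sep en y x J := by
  unfold Sep
  exact exists_congr fun ω => and_congr_right fun _ => ne_comm

/-- The contribution of the cells at the finer levels. -/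
lemma E1 {q : ℕ} {R : M → ℝ} (hR : ∀ v, 0 ≤ R v) (x y : M) :
    Fintype.card Ω * ∑ w : Fin (2 ^ (q + 1)) → Ω,
      wsum (fun _ b => if Sep en x y (Jw w b) then DD en R (Jw w b) x else 0) (q + 1) ≤
    2 * ((sepS en x y).card * (Fintype.card Ω * (Fintype.card (Fin (2 ^ (q + 1)) → Ω) *
      Real.log (∑ v, R v + 1)))) := by
  rw [wsum_sum, ← wsum_mul]
  have h1 : wsum (fun _ b => (Fintype.card Ω : ℝ) * ∑ w : Fin (2 ^ (q + 1)) → Ω,
      (if Sep en x y (Jw w b) then DD en R (Jw w b) x else 0)) (q + 1) ≤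
      ∑ j ∈ Finset.range (q + 1), ∑ k ∈ Finset.Ico (2 ^ j) (2 ^ (j + 1)),
        2 * HH en (2 ^ (q + 1)) R x y (k - 1) := by
    unfold wsum
    refine Finset.sum_le_sum fun j hj => ?_
    rw [Finset.mul_sum]
    refine Finset.sum_le_sum fun k hk => ?_
    rw [Finset.mem_Ico] at hk
    have hj' := Finset.mem_range.1 hj
    have hkK : k ≤ 2 ^ (q + 1) :=
      hk.2.le.trans (Nat.pow_le_pow_right (by norm_num) (by omega))
    have hp := palm en hR x y hkK
    have hH := HH_nonneg en (K := 2 ^ (q + 1)) hR x y (k - 1)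
    have h2 : (0 : ℝ) < 2 ^ j := by positivity
    have h3 : (k : ℝ) ≤ 2 * 2 ^ j := by
      have : k ≤ 2 * 2 ^ j := by
        have := hk.2
        rw [pow_succ] at this
        omega
      exact_mod_cast this
    calc 1 / 2 ^ j * ((Fintype.card Ω : ℝ) * ∑ w : Fin (2 ^ (q + 1)) → Ω,
          (if Sep en x y (Jw w k) then DD en R (Jw w k) x else 0))
        ≤ 1 / 2 ^ j * (k * HH en (2 ^ (q + 1)) R x y (k - 1)) :=
          mul_le_mul_of_nonneg_left hp (by positivity)
      _ ≤ 1 / 2 ^ j * (2 * 2 ^ j * HH en (2 ^ (q + 1)) R x y (k - 1)) := by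
          apply mul_le_mul_of_nonneg_left _ (by positivity)
          exact mul_le_mul_of_nonneg_right h3 hH
      _ = 2 * HH en (2 ^ (q + 1)) R x y (k - 1) := by field_simp
  refine h1.trans ?_
  rw [sum_blocks, ← Finset.mul_sum]
  apply mul_le_mul_of_nonneg_left _ (by norm_num)
  refine le_trans ?_ (HH_sum en hR x y)
  have e1 : ∑ k ∈ Finset.Ico 1 (2 ^ (q + 1)), HH en (2 ^ (q + 1)) R x y (k - 1) =
      ∑ t ∈ Finset.range (2 ^ (q + 1) - 1), HH en (2 ^ (q + 1)) R x y t := by
    rw [Finset.sum_Ico_eq_sum_range]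
    refine Finset.sum_congr rfl fun t _ => ?_
    rw [Nat.add_sub_cancel_left]
  rw [e1]
  apply Finset.sum_le_sum_of_subset_of_nonneg
  · intro t ht
    rw [Finset.mem_range] at ht ⊢
    omega
  · intro t _ _
    exact HH_nonneg en hR x y t

/-- The contribution of the cells at the coarser levels. -/
lemma E2 {q : ℕ} {R : M → ℝ} (hR : ∀ v, 0 ≤ R v) (x y : M) :
    Fintype.card Ω * ∑ w : Fin (2 ^ (q + 1)) → Ω,
      wsum (fun a b => if Sep en x y (Jw w b) then DD en R (Jw w a) x else 0) (q + 1) ≤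
    4 * ((sepS en x y).card * (Fintype.card Ω * (Fintype.card (Fin (2 ^ (q + 1)) → Ω) *
      Real.log (∑ v, R v + 1)))) := by
  rw [wsum_sum, ← wsum_mul]
  set K := 2 ^ (q + 1) with hK
  set H0 : ℕ → ℝ := fun t => ∑ w : Fin K → Ω, DD en R (Jw w t) x with hH0
  have hH00 : ∀ t, 0 ≤ H0 t := fun t => Finset.sum_nonneg fun w _ => DD_nonneg en hR _ _
  set H1 : ℕ → ℝ := fun t => if t = 0 then 0 else HH en K R x y (t - 1) with hH1
  have hH10 : ∀ t, 0 ≤ H1 t := by
    intro t
    simp only [hH1]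
    split_ifs
    · exact le_rfl
    · exact HH_nonneg en hR x y _
  have hHt : ∀ t : ℕ, (t : ℝ) * HH en K R x y (t - 1) = t * H1 t := by
    intro t
    simp only [hH1]
    split_ifs with h
    · rw [h]; simp
    · rfl
  have h1 : wsum (fun a b => (Fintype.card Ω : ℝ) * ∑ w : Fin K → Ω,
      (if Sep en x y (Jw w b) then DD en R (Jw w a) x else 0)) (q + 1) ≤
      ∑ j ∈ Finset.range (q + 1), ∑ k ∈ Finset.Ico (2 ^ j) (2 ^ (j + 1)),
        (H1 (k / 2) + (sepS en x y).card * H0 (k / 2)) := by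
    unfold wsum
    refine Finset.sum_le_sum fun j hj => ?_
    rw [Finset.mul_sum]
    refine Finset.sum_le_sum fun k hk => ?_
    rw [Finset.mem_Ico] at hk
    have hj' := Finset.mem_range.1 hj
    have hkK : k ≤ K := hk.2.le.trans (Nat.pow_le_pow_right (by norm_num) (by omega))
    have hp := palm2 en hR x y (Nat.div_le_self k 2) hkK
    rw [hHt] at hp
    have h2 : (0 : ℝ) < 2 ^ j := by positivity
    have hk2 : k < 2 * 2 ^ j := by
      have := hk.2
      rw [pow_succ] at this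
      omega
    have h3 : ((k / 2 : ℕ) : ℝ) ≤ 2 ^ j := by
      have : k / 2 ≤ 2 ^ j := by omega
      exact_mod_cast this
    have h4 : ((k - k / 2 : ℕ) : ℝ) ≤ 2 ^ j := by
      have : k - k / 2 ≤ 2 ^ j := by omega
      exact_mod_cast this
    have hc : 0 ≤ ((sepS en x y).card : ℝ) * H0 (k / 2) :=
      mul_nonneg (Nat.cast_nonneg _) (hH00 _)
    calc 1 / 2 ^ j * ((Fintype.card Ω : ℝ) * ∑ w : Fin K → Ω,
          (if Sep en x y (Jw w k) then DD en R (Jw w (k / 2)) x else 0))
        ≤ 1 / 2 ^ j * (((k / 2 : ℕ) : ℝ) * H1 (k / 2) + ((k - k / 2 : ℕ) : ℝ) *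
            ((sepS en x y).card * H0 (k / 2))) :=
          mul_le_mul_of_nonneg_left hp (by positivity)
      _ ≤ 1 / 2 ^ j * (2 ^ j * H1 (k / 2) + 2 ^ j * ((sepS en x y).card * H0 (k / 2))) := by
          apply mul_le_mul_of_nonneg_left _ (by positivity)
          exact add_le_add (mul_le_mul_of_nonneg_right h3 (hH10 _))
            (mul_le_mul_of_nonneg_right h4 hc)
      _ = H1 (k / 2) + (sepS en x y).card * H0 (k / 2) := by field_simp
  refine h1.trans ?_
  rw [sum_blocks]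
  have h2 : ∑ k ∈ Finset.Ico 1 K, (H1 (k / 2) + (sepS en x y).card * H0 (k / 2)) ≤
      ∑ k ∈ Finset.range (2 * 2 ^ q), (H1 (k / 2) + (sepS en x y).card * H0 (k / 2)) := by
    apply Finset.sum_le_sum_of_subset_of_nonneg
    · intro k hk
      rw [Finset.mem_Ico] at hk
      rw [Finset.mem_range]
      have : K = 2 * 2 ^ q := by rw [hK]; ring
      omega
    · intro k _ _
      exact add_nonneg (hH10 _) (mul_nonneg (Nat.cast_nonneg _) (hH00 _))
  refine h2.trans ?_
  rw [sum_half (fun k => H1 k + (sepS en x y).card * H0 k), Finset.sum_add_distrib,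
    ← Finset.mul_sum]
  have hqK : 2 ^ q ≤ K := Nat.pow_le_pow_right (by norm_num) (Nat.le_succ q)
  have h3 : ∑ t ∈ Finset.range (2 ^ q), H1 t ≤ ∑ t ∈ Finset.range K, HH en K R x y t := by
    obtain ⟨n, hn⟩ : ∃ n, 2 ^ q = n + 1 := ⟨2 ^ q - 1, by
      have : 1 ≤ 2 ^ q := Nat.one_le_two_pow
      omega⟩
    rw [hn, Finset.sum_range_succ']
    have e0 : H1 0 = 0 := by simp [hH1]
    rw [e0, add_zero]
    have e1 : ∀ t ∈ Finset.range n, H1 (t + 1) = HH en K R x y t := by
      intro t _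
      simp [hH1]
    rw [Finset.sum_congr rfl e1]
    apply Finset.sum_le_sum_of_subset_of_nonneg
    · intro t ht
      rw [Finset.mem_range] at ht ⊢
      omega
    · intro t _ _
      exact HH_nonneg en hR x y t
  have h4 : ∑ t ∈ Finset.range (2 ^ q), H0 t ≤ ∑ t ∈ Finset.range K, H0 t := by
    apply Finset.sum_le_sum_of_subset_of_nonneg
    · intro t ht
      rw [Finset.mem_range] at ht ⊢
      omega
    · intro t _ _
      exact hH00 t
  have h5 := HH_sum en (K := K) hR x y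
  have h6 : ∑ t ∈ Finset.range K, H0 t ≤
      Fintype.card Ω * (Fintype.card (Fin K → Ω) * Real.log (∑ v, R v + 1)) :=
    potential en hR x
  have h7 := mul_le_mul_of_nonneg_left (h4.trans h6)
    (Nat.cast_nonneg (sepS en x y).card : (0 : ℝ) ≤ (sepS en x y).card)
  linarith

/-- The contribution of the last level. -/
lemma E3 {q : ℕ} (hq : Fintype.card Ω ≤ 2 ^ q) {R : M → ℝ} (hR : ∀ v, 0 ≤ R v) (x : M) :
    ∑ w : Fin (2 ^ (q + 1)) → Ω, 1 / 2 ^ q * ∑ k ∈ Finset.Ico (2 ^ q) (2 ^ (q + 1)),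
      DD en R (Jw w k) x ≤
    Fintype.card (Fin (2 ^ (q + 1)) → Ω) * Real.log (∑ v, R v + 1) := by
  rw [← Finset.mul_sum, Finset.sum_comm]
  have h1 : ∑ k ∈ Finset.Ico (2 ^ q) (2 ^ (q + 1)), ∑ w : Fin (2 ^ (q + 1)) → Ω,
      DD en R (Jw w k) x ≤
      Fintype.card Ω * (Fintype.card (Fin (2 ^ (q + 1)) → Ω) * Real.log (∑ v, R v + 1)) := by
    refine le_trans ?_ (potential en (K := 2 ^ (q + 1)) hR x)
    apply Finset.sum_le_sum_of_subset_of_nonneg
    · intro t ht
      rw [Finset.mem_Ico] at ht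
      exact Finset.mem_range.2 ht.2
    · intro t _ _
      exact Finset.sum_nonneg fun w _ => DD_nonneg en hR _ _
  have hlog : 0 ≤ Real.log (∑ v, R v + 1) := by
    apply Real.log_nonneg
    have : 0 ≤ ∑ v, R v := Finset.sum_nonneg fun v _ => hR v
    linarith
  have h2 : (Fintype.card Ω : ℝ) ≤ 2 ^ q := by exact_mod_cast hq
  have h3 : (0 : ℝ) < 2 ^ q := by positivity
  have h4 : 0 ≤ (Fintype.card (Fin (2 ^ (q + 1)) → Ω) : ℝ) * Real.log (∑ v, R v + 1) :=
    mul_nonneg (Nat.cast_nonneg _) hlog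
  calc 1 / 2 ^ q * ∑ k ∈ Finset.Ico (2 ^ q) (2 ^ (q + 1)), ∑ w : Fin (2 ^ (q + 1)) → Ω,
        DD en R (Jw w k) x
      ≤ 1 / 2 ^ q * (Fintype.card Ω * (Fintype.card (Fin (2 ^ (q + 1)) → Ω) *
        Real.log (∑ v, R v + 1))) := mul_le_mul_of_nonneg_left h1 (by positivity)
    _ ≤ 1 / 2 ^ q * (2 ^ q * (Fintype.card (Fin (2 ^ (q + 1)) → Ω) *
        Real.log (∑ v, R v + 1))) := by
        apply mul_le_mul_of_nonneg_left _ (by positivity)
        exact mul_le_mul_of_nonneg_right h2 h4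
    _ = _ := by field_simp

lemma sum_mul_addPt (R χ : M → ℝ) (x : M) :
    ∑ v, χ v * addPt R x v = ∑ v, χ v * R v + χ x := by
  unfold addPt
  have h : ∀ v, χ v * (R v + if v = x then 1 else 0) = χ v * R v + if v = x then χ v else 0 := by
    intro v
    split_ifs <;> ring
  rw [Finset.sum_congr rfl fun v _ => h v, Finset.sum_add_distrib, Finset.sum_ite_eq',
    if_pos (Finset.mem_univ _)]

lemma bd_addPt (R : M → ℝ) (x y : M) : bd en (addPt R x) (addPt R y) = hm en x y := by
  unfold bd hm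
  refine Finset.sum_congr rfl fun ω _ => ?_
  rw [sum_mul_addPt, sum_mul_addPt]
  congr 1
  ring

/-- The bound for one word. -/
lemma tw_le (hen : Function.Injective en) {q : ℕ} {R : M → ℕ} {s : ℕ} (hs : ∑ v, R v + 1 = s)
    (x y : M) (w : Fin (2 ^ (q + 1)) → Ω) :
    tw en (addPt (fun v => (R v : ℝ)) x) (addPt (fun v => (R v : ℝ)) y) q w ≤
      2 * hm en x y * Real.log s +
      2 * wsum (fun a b => if Sep en x y (Jw w b) then DD en (fun v => (R v : ℝ)) (Jw w a) x
        else 0) (q + 1) +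
      2 * wsum (fun _ b => if Sep en x y (Jw w b) then DD en (fun v => (R v : ℝ)) (Jw w b) x
        else 0) (q + 1) +
      2 * wsum (fun a b => if Sep en y x (Jw w b) then DD en (fun v => (R v : ℝ)) (Jw w a) y
        else 0) (q + 1) +
      2 * wsum (fun _ b => if Sep en y x (Jw w b) then DD en (fun v => (R v : ℝ)) (Jw w b) y
        else 0) (q + 1) +
      2 * (1 / 2 ^ q * ∑ k ∈ Finset.Ico (2 ^ q) (2 ^ (q + 1)),
        DD en (fun v => (R v : ℝ)) (Jw w k) x) +
      2 * (1 / 2 ^ q * ∑ k ∈ Finset.Ico (2 ^ q) (2 ^ (q + 1)),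
        DD en (fun v => (R v : ℝ)) (Jw w k) y) := by
  have hR : ∀ v, 0 ≤ (fun v => (R v : ℝ)) v := fun v => Nat.cast_nonneg _
  set φ : ℕ → ℝ := fun t => Real.log (Nn en (fun v => (R v : ℝ)) (Jw w t) x) with hφ
  set φ' : ℝ := Real.log (Nn en (fun v => (R v : ℝ)) Finset.univ x) with hφ'
  have hφ'0 : 0 ≤ φ' := Real.log_nonneg (Nn_pos en hR _ _)
  have hφ0 : φ 0 = Real.log s := by
    simp only [hφ]
    rw [Jw_zero]
    have e2 : Nn en (fun v => (R v : ℝ)) ∅ x = s := by
      unfold Nn cs gJ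
      simp only [mask_empty, if_true]
      rw [← hs]
      push_cast
      rfl
    rw [e2]
  have hhm : 0 ≤ hm en x y := Finset.sum_nonneg fun _ _ => abs_nonneg _
  -- the inner levels
  have h1 : wsum (fun a b => ∑ ω, xp en (addPt (fun v => (R v : ℝ)) x)
      (addPt (fun v => (R v : ℝ)) y) (Jw w a) (Jw w b) ω) (q + 1) ≤
      wsum (fun a b => 2 * hm en x y * (φ a - φ b) +
        (2 * (if Sep en x y (Jw w b) then DD en (fun v => (R v : ℝ)) (Jw w a) x else 0) +
        (2 * (if Sep en x y (Jw w b) then DD en (fun v => (R v : ℝ)) (Jw w b) x else 0) +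
        (2 * (if Sep en y x (Jw w b) then DD en (fun v => (R v : ℝ)) (Jw w a) y else 0) +
        2 * (if Sep en y x (Jw w b) then DD en (fun v => (R v : ℝ)) (Jw w b) y else 0))))) (q + 1) := by
    apply wsum_mono
    intro k _ _
    refine (pair_le en hs (Jw_mono w (Nat.div_le_self k 2)) x y).trans (le_of_eq ?_)
    simp only [← Sep_comm en x y]
    congr 1
    split_ifs
    · ring
    · ring
  have h2 : ∑ k ∈ Finset.Ico (2 ^ q) (2 ^ (q + 1)), ∑ ω, xp en (addPt (fun v => (R v : ℝ)) x)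
      (addPt (fun v => (R v : ℝ)) y) (Jw w k) Finset.univ ω ≤
      ∑ k ∈ Finset.Ico (2 ^ q) (2 ^ (q + 1)), (2 * hm en x y * (φ k - φ') +
        (2 * DD en (fun v => (R v : ℝ)) (Jw w k) x + 2 * DD en (fun v => (R v : ℝ)) (Jw w k) y)) := by
    refine Finset.sum_le_sum fun k _ => ?_
    refine (pair_le en hs (Finset.subset_univ _) x y).trans ?_
    apply add_le_add le_rfl
    rw [DD_univ en hen, DD_univ en hen]
    have a1 := DD_nonneg en hR (Jw w k) x
    have a2 := DD_nonneg en hR (Jw w k) y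
    split_ifs
    · linarith
    · linarith
  have h3 := wsum_tele φ φ' q
  unfold tw
  have h4 : (0 : ℝ) ≤ 1 / 2 ^ q := by positivity
  refine (add_le_add h1 (mul_le_mul_of_nonneg_left h2 h4)).trans ?_
  rw [wsum_add, wsum_mul, wsum_add, wsum_mul, wsum_add, wsum_mul, wsum_add, wsum_mul, wsum_mul,
    Finset.sum_add_distrib, ← Finset.mul_sum, Finset.sum_add_distrib, ← Finset.mul_sum,
    ← Finset.mul_sum]
  have h5 : 2 * hm en x y * (wsum (fun a b => φ a - φ b) (q + 1) +
      1 / 2 ^ q * ∑ k ∈ Finset.Ico (2 ^ q) (2 ^ (q + 1)), (φ k - φ')) ≤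
      2 * hm en x y * Real.log s := by
    rw [h3, hφ0]
    apply mul_le_mul_of_nonneg_left _ (by linarith)
    linarith
  linarith

/-- The upper bound. -/
theorem upper (hen : Function.Injective en) [Nonempty Ω] {q : ℕ} (hq : Fintype.card Ω ≤ 2 ^ q)
    {R : M → ℕ} {s : ℕ} (hs : ∑ v, R v + 1 = s) {x y : M} (hxy : x ≠ y) :
    tot en (addPt (fun v => (R v : ℝ)) x) (addPt (fun v => (R v : ℝ)) y) q ≤
      (1 + 30 * Real.log s) * hm en x y := by
  have hR : ∀ v, 0 ≤ (fun v => (R v : ℝ)) v := fun v => Nat.cast_nonneg _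
  set W := Fin (2 ^ (q + 1)) → Ω with hW
  have hWpos : (0 : ℝ) < Fintype.card W := by
    have : 0 < Fintype.card W := Fintype.card_pos
    exact_mod_cast this
  have hΩ : (0 : ℝ) < Fintype.card Ω := by
    have : 0 < Fintype.card Ω := Fintype.card_pos
    exact_mod_cast this
  have hlogs : Real.log (∑ v, (R v : ℝ) + 1) = Real.log s := by
    rw [← hs]; push_cast; rfl
  have hlog0 : 0 ≤ Real.log s := by
    apply Real.log_nonneg
    have : 1 ≤ s := by omega
    exact_mod_cast this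
  set ρ : ℝ := hm en x y with hρ
  have hρc : ρ = (sepS en x y).card := hm_eq en x y
  have hρc' : ρ = (sepS en y x).card := by rw [hρc, sepS_comm]
  have hρ1 : 1 ≤ ρ := by
    rw [hρc]
    have h1 : 0 < (sepS en x y).card := by
      rw [Finset.card_pos]
      by_contra hcon
      rw [Finset.not_nonempty_iff_eq_empty] at hcon
      apply hxy
      apply hen
      funext ω
      by_contra hne
      have : ω ∈ sepS en x y := (mem_sepS en).2 hne
      rw [hcon] at this
      simp at this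
    exact_mod_cast h1
  have key : ∀ {a b c : ℝ}, (Fintype.card Ω : ℝ) * a ≤ c * (ρ * (Fintype.card Ω * b)) →
      a ≤ c * (ρ * b) := by
    intro a b c h
    have : (Fintype.card Ω : ℝ) * a ≤ Fintype.card Ω * (c * (ρ * b)) := by linarith
    exact le_of_mul_le_mul_left this hΩ
  have a1 := E1 en (q := q) hR x y
  have a2 := E2 en (q := q) hR x y
  have a3 := E1 en (q := q) hR y x
  have a4 := E2 en (q := q) hR y x
  have a5 := E3 en hq hR x
  have a6 := E3 en hq hR y
  rw [hlogs] at a1 a2 a3 a4 a5 a6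
  rw [← hρc] at a1 a2
  rw [← hρc'] at a3 a4
  have b1 := key a1
  have b2 := key a2
  have b3 := key a3
  have b4 := key a4
  have hsum : ∑ w : W, tw en (addPt (fun v => (R v : ℝ)) x) (addPt (fun v => (R v : ℝ)) y) q w ≤
      Fintype.card W * (30 * (ρ * Real.log s)) := by
    refine (Finset.sum_le_sum fun w _ => tw_le en hen hs x y w).trans ?_
    simp only [Finset.sum_add_distrib, Finset.sum_const, Finset.card_univ, nsmul_eq_mul]
    simp only [← Finset.mul_sum] at a5 a6 ⊢
    have c1 : (Fintype.card W : ℝ) * Real.log s ≤ Fintype.card W * (ρ * Real.log s) := by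
      apply mul_le_mul_of_nonneg_left _ hWpos.le
      nlinarith
    linarith
  unfold tot
  rw [bd_addPt, ← hρ]
  have h7 : 1 / (Fintype.card W : ℝ) * ∑ w : W, tw en (addPt (fun v => (R v : ℝ)) x)
      (addPt (fun v => (R v : ℝ)) y) q w ≤ 1 / (Fintype.card W : ℝ) *
      (Fintype.card W * (30 * (ρ * Real.log s))) :=
    mul_le_mul_of_nonneg_left hsum (by positivity)
  have h8 : 1 / (Fintype.card W : ℝ) * (Fintype.card W * (30 * (ρ * Real.log s))) =
      30 * (ρ * Real.log s) := by field_simp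
  rw [h8] at h7
  linarith

end Pool.Agent.MP_12e089_an.LogS
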