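import Pool.Agent.MP_12e089_an.LogS.Chain

set_option linter.unusedSectionVars false

/-!
The effect of one point on the features of a pair of levels.
-/

namespace Pool.Agent.MP_12e089_an.LogS

open Finset

variable {M L : Type} [Fintype M] [DecidableEq M] [Fintype L] [DecidableEq L]

/-- Adding a point. -/
def addPt (R : M → ℝ) (x : M) : M → ℝ := fun v => R v + if v = x then 1 else 0

lemma cs_addPt (g : M → L) (Q : L) (R : M → ℝ) (x : M) :
    cs g Q (addPt R x) = cs g Q R + if g x = Q then 1 else 0 := by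
  have h : cs g Q (addPt R x) = cs g Q (fun v => R v + (if v = x then 1 else 0)) := rfl
  rw [h, cs_add]
  congr 1
  unfold cs
  rw [Finset.sum_eq_single x]
  · simp
  · intro v _ hv; simp [hv]
  · intro h; exact absurd (Finset.mem_univ _) h

lemma cs_mul_addPt (g : M → L) (Q : L) (R χ : M → ℝ) (x : M) :
    cs g Q (fun v => χ v * addPt R x v) = cs g Q (fun v => χ v * R v) +
      if g x = Q then χ x else 0 := by
  have h : cs g Q (fun v => χ v * addPt R x v) =
      cs g Q (fun v => χ v * R v + (if v = x then χ v else 0)) := by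
    apply cs_congr
    intro v _
    unfold addPt
    split_ifs
    · ring
    · ring
  rw [h, cs_add]
  congr 1
  unfold cs
  rw [Finset.sum_eq_single x]
  · simp
  · intro v _ hv; simp [hv]
  · intro h; exact absurd (Finset.mem_univ _) h

/-- The fraction of the cell of `x` (with `x` added) on the other side of `χ`. -/
noncomputable def ot (f : M → L) (R χ : M → ℝ) (x : M) : ℝ :=
  cs f (f x) (fun v => R v * |χ v - χ x|) / (cs f (f x) R + 1)

lemma ot_nonneg (f : M → L) {R : M → ℝ} (hR : ∀ v, 0 ≤ R v) (χ : M → ℝ) (x : M) :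
    0 ≤ ot f R χ x := by
  apply div_nonneg (cs_nonneg _ _ fun v => mul_nonneg (hR v) (abs_nonneg _))
  have := cs_nonneg f (f x) hR
  linarith

lemma ot_eq (f : M → L) {R χ : M → ℝ} (hR : ∀ v, 0 ≤ R v) (hχ : ∀ v, χ v = 0 ∨ χ v = 1) (x : M) :
    ot f R χ x = |cs f (f x) (fun v => χ v * R v) - cs f (f x) R * χ x| / (cs f (f x) R + 1) := by
  unfold ot
  congr 1
  rcases hχ x with h | h
  · rw [h, mul_zero, sub_zero, abs_of_nonneg]
    · apply cs_congr
      intro v _
      rcases hχ v with h1 | h1 <;> simp [h1]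
    · apply cs_nonneg
      intro v
      rcases hχ v with h1 | h1
      · simp [h1]
      · rw [h1, one_mul]; exact hR v
  · rw [h, mul_one, abs_sub_comm, ← cs_sub, abs_of_nonneg]
    · apply cs_congr
      intro v _
      rcases hχ v with h1 | h1 <;> simp [h1]
    · apply cs_nonneg
      intro v
      rcases hχ v with h1 | h1
      · rw [h1]; simpa using hR v
      · simp [h1]

lemma frac_add_sub (f : M → L) {R χ : M → ℝ} (hR : ∀ v, 0 ≤ R v) (hχ : ∀ v, χ v = 0 ∨ χ v = 1)
    (x : M) :
    |cs f (f x) (fun v => χ v * addPt R x v) / cs f (f x) (addPt R x) - χ x| = ot f R χ x := by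
  rw [ot_eq f hR hχ, cs_mul_addPt, cs_addPt, if_pos rfl, if_pos rfl]
  have hn : 0 < cs f (f x) R + 1 := by
    have := cs_nonneg f (f x) hR
    linarith
  have e : (cs f (f x) (fun v => χ v * R v) + χ x) / (cs f (f x) R + 1) - χ x =
      (cs f (f x) (fun v => χ v * R v) - cs f (f x) R * χ x) / (cs f (f x) R + 1) := by
    field_simp
    ring
  rw [e, abs_div, abs_of_pos hn]

lemma frac_add_diff (f : M → L) {R χ : M → ℝ} (hR : ∀ v, 0 ≤ R v) (hχ : ∀ v, χ v = 0 ∨ χ v = 1)
    (x : M) :
    cs f (f x) R * |cs f (f x) (fun v => χ v * addPt R x v) / cs f (f x) (addPt R x) -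
      cs f (f x) (fun v => χ v * R v) / cs f (f x) R| = ot f R χ x := by
  rw [ot_eq f hR hχ, cs_mul_addPt, cs_addPt, if_pos rfl, if_pos rfl]
  have h0 := cs_nonneg f (f x) hR
  have hn : 0 < cs f (f x) R + 1 := by linarith
  have hm0 : 0 ≤ cs f (f x) (fun v => χ v * R v) := by
    apply cs_nonneg
    intro v
    rcases hχ v with h1 | h1
    · simp [h1]
    · rw [h1, one_mul]; exact hR v
  have hm1 : cs f (f x) (fun v => χ v * R v) ≤ cs f (f x) R := by
    apply cs_mono
    intro v
    rcases hχ v with h1 | h1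
    · simpa [h1] using hR v
    · rw [h1, one_mul]
  rcases eq_or_ne (cs f (f x) R) 0 with h | h
  · have : cs f (f x) (fun v => χ v * R v) = 0 := le_antisymm (h ▸ hm1) hm0
    rw [h, this]; simp
  · have hp : 0 < cs f (f x) R := lt_of_le_of_ne h0 (Ne.symm h)
    rw [← abs_of_pos hp, ← abs_mul, abs_of_pos hp]
    have e : cs f (f x) R * ((cs f (f x) (fun v => χ v * R v) + χ x) / (cs f (f x) R + 1) -
        cs f (f x) (fun v => χ v * R v) / cs f (f x) R) =
        -((cs f (f x) (fun v => χ v * R v) - cs f (f x) R * χ x) / (cs f (f x) R + 1)) := by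
      field_simp
      ring
    rw [e, abs_neg, abs_div, abs_of_pos hn]

/-- One point added. -/
theorem xd_add {R : M → ℝ} (hR : ∀ v, 0 ≤ R v) (g : M → L) (h : L → L) {χ : M → ℝ}
    (hχ : ∀ v, χ v = 0 ∨ χ v = 1) (x : M) :
    xd (addPt R x) R g h χ ≤ 2 * ot (fun v => h (g v)) R χ x + 2 * ot g R χ x := by
  set f : M → L := fun v => h (g v) with hf
  set pf := cs f (f x) (fun v => χ v * R v) / cs f (f x) R with hpf
  set pf' := cs f (f x) (fun v => χ v * addPt R x v) / cs f (f x) (addPt R x) with hpf'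
  set pg := cs g (g x) (fun v => χ v * R v) / cs g (g x) R with hpg
  set pg' := cs g (g x) (fun v => χ v * addPt R x v) / cs g (g x) (addPt R x) with hpg'
  have a1 : |pf' - χ x| = ot f R χ x := frac_add_sub f hR hχ x
  have a2 : cs f (f x) R * |pf' - pf| = ot f R χ x := frac_add_diff f hR hχ x
  have a3 : |pg' - χ x| = ot g R χ x := frac_add_sub g hR hχ x
  have a4 : cs g (g x) R * |pg' - pg| = ot g R χ x := frac_add_diff g hR hχ x
  have hterm : ∀ Q, dst (cs g Q (addPt R x)) (cs g Q R)
      (cs g Q (fun v => χ v * addPt R x v) / cs g Q (addPt R x) -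
        cs f (h Q) (fun v => χ v * addPt R x v) / cs f (h Q) (addPt R x))
      (cs g Q (fun v => χ v * R v) / cs g Q R -
        cs f (h Q) (fun v => χ v * R v) / cs f (h Q) R) ≤
      (if h Q = f x then cs g Q R * |pf' - pf| else 0) +
      (if Q = g x then cs g (g x) R * |pg' - pg| + (|pg' - χ x| + |pf' - χ x|) else 0) := by
    intro Q
    have hN : 0 ≤ cs g Q R := cs_nonneg _ _ hR
    by_cases hQ : Q = g x
    · subst hQ
      have hfx : h (g x) = f x := rfl
      rw [if_pos hfx, if_pos (rfl : g x = g x), hfx, ← hpf, ← hpf', ← hpg, ← hpg']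
      have hN1 : cs g (g x) (addPt R x) = cs g (g x) R + 1 := by
        rw [cs_addPt, if_pos rfl]
      unfold dst
      rw [hN1, min_eq_right (by linarith), add_sub_cancel_left, pos_of_nonneg (by norm_num : (0:ℝ) ≤ 1),
        pos_of_nonpos (by linarith : cs g (g x) R - (cs g (g x) R + 1) ≤ 0)]
      have b1 : |pg' - pf' - (pg - pf)| ≤ |pg' - pg| + |pf' - pf| := by
        have : pg' - pf' - (pg - pf) = (pg' - pg) - (pf' - pf) := by ring
        rw [this]; exact abs_sub _ _
      have b2 : |pg' - pf'| ≤ |pg' - χ x| + |pf' - χ x| := by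
        have : pg' - pf' = (pg' - χ x) - (pf' - χ x) := by ring
        rw [this]; exact abs_sub _ _
      have b3 := mul_le_mul_of_nonneg_left b1 hN
      linarith
    · have hQ' : ¬ (g x = Q) := fun h => hQ h.symm
      have e1 : cs g Q (addPt R x) = cs g Q R := by rw [cs_addPt, if_neg hQ', add_zero]
      have e2 : cs g Q (fun v => χ v * addPt R x v) = cs g Q (fun v => χ v * R v) := by
        rw [cs_mul_addPt, if_neg hQ', add_zero]
      rw [if_neg hQ, add_zero, e1, e2]
      unfold dst
      rw [sub_self, pos_zero, min_self, zero_mul, zero_mul, add_zero, add_zero]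
      by_cases hP : h Q = f x
      · rw [if_pos hP, hP, ← hpf, ← hpf']
        apply le_of_eq
        congr 1
        rw [abs_sub_comm]
        congr 1
        ring
      · have hP' : ¬ (f x = h Q) := fun h => hP h.symm
        rw [if_neg hP, cs_addPt, if_neg hP', add_zero, cs_mul_addPt, if_neg hP', add_zero, sub_self,
          abs_zero, mul_zero]
  have hsum : xd (addPt R x) R g h χ ≤ ∑ Q, ((if h Q = f x then cs g Q R * |pf' - pf| else 0) +
      (if Q = g x then cs g (g x) R * |pg' - pg| + (|pg' - χ x| + |pf' - χ x|) else 0)) :=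
    Finset.sum_le_sum fun Q _ => hterm Q
  refine hsum.trans (le_of_eq ?_)
  rw [Finset.sum_add_distrib, Finset.sum_ite_eq', if_pos (Finset.mem_univ _), ← Finset.sum_filter,
    ← Finset.sum_mul]
  have e : ∑ Q ∈ Finset.univ.filter (fun Q => h Q = f x), cs g Q R = cs f (f x) R :=
    (cs_comp g h (f x) R).symm
  rw [e, a2, a4, a1, a3]
  ring

/-- One point moved inside a cell. -/
theorem xd_move {R : M → ℝ} (hR : ∀ v, 0 ≤ R v) (g : M → L) (h : L → L) (χ : M → ℝ)
    {x y : M} (hxy : g x = g y) :
    xd (addPt R x) (addPt R y) g h χ ≤ 2 * |χ x - χ y| *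
      (1 - (cs g (g x) R + 1) / (cs (fun v => h (g v)) (h (g x)) R + 1)) := by
  set f : M → L := fun v => h (g v) with hf
  have hfxy : f x = f y := congrArg h hxy
  set NP := cs f (f x) R + 1 with hNP
  set NQ := cs g (g x) R + 1 with hNQ
  have hNQ0 : 0 < NQ := by have := cs_nonneg g (g x) hR; linarith
  have hNP0 : 0 < NP := by have := cs_nonneg f (f x) hR; linarith
  have hle : NQ ≤ NP := by
    have : cs g (g x) R ≤ cs f (f x) R := by
      have e : cs f (f x) R = ∑ Q ∈ Finset.univ.filter (fun Q => h Q = f x), cs g Q R :=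
        cs_comp g h (f x) R
      rw [e]
      exact Finset.single_le_sum (f := fun Q => cs g Q R) (fun Q _ => cs_nonneg _ _ hR)
        (Finset.mem_filter.2 ⟨Finset.mem_univ _, rfl⟩)
    linarith
  have F1 : cs f (f x) (addPt R x) = NP := by rw [cs_addPt, if_pos rfl]
  have F2 : cs f (f x) (fun v => χ v * addPt R x v) =
      cs f (f x) (fun v => χ v * R v) + χ x := by rw [cs_mul_addPt, if_pos rfl]
  have F3 : cs f (f x) (fun v => χ v * addPt R y v) =
      cs f (f x) (fun v => χ v * R v) + χ y := by rw [cs_mul_addPt, if_pos hfxy.symm]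
  have F4 : cs f (f x) (addPt R y) = NP := by rw [cs_addPt, if_pos hfxy.symm]
  have hterm : ∀ Q, dst (cs g Q (addPt R x)) (cs g Q (addPt R y))
      (cs g Q (fun v => χ v * addPt R x v) / cs g Q (addPt R x) -
        cs f (h Q) (fun v => χ v * addPt R x v) / cs f (h Q) (addPt R x))
      (cs g Q (fun v => χ v * addPt R y v) / cs g Q (addPt R y) -
        cs f (h Q) (fun v => χ v * addPt R y v) / cs f (h Q) (addPt R y)) ≤
      (if h Q = f x then |χ x - χ y| * (cs g Q R / NP) else 0) +
      (if Q = g x then |χ x - χ y| * (1 - NQ / NP - cs g (g x) R / NP) else 0) := by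
    intro Q
    have e0 : cs g Q (addPt R y) = cs g Q (addPt R x) := by rw [cs_addPt, cs_addPt, hxy]
    rw [e0]
    unfold dst
    rw [sub_self, pos_zero, min_self, zero_mul, zero_mul, add_zero, add_zero]
    by_cases hQ : Q = g x
    · subst hQ
      have hfx : h (g x) = f x := rfl
      have E1 : cs g (g x) (addPt R x) = NQ := by rw [cs_addPt, if_pos rfl]
      have E2 : cs g (g x) (fun v => χ v * addPt R x v) =
          cs g (g x) (fun v => χ v * R v) + χ x := by rw [cs_mul_addPt, if_pos rfl]
      have E3 : cs g (g x) (fun v => χ v * addPt R y v) =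
          cs g (g x) (fun v => χ v * R v) + χ y := by rw [cs_mul_addPt, if_pos hxy.symm]
      rw [if_pos hfx, if_pos (rfl : g x = g x), hfx, E1, E2, E3, F1, F2, F3, F4]
      have e1 : (cs g (g x) (fun v => χ v * R v) + χ x) / NQ -
          (cs f (f x) (fun v => χ v * R v) + χ x) / NP -
          ((cs g (g x) (fun v => χ v * R v) + χ y) / NQ -
          (cs f (f x) (fun v => χ v * R v) + χ y) / NP) = (χ x - χ y) * (1 / NQ - 1 / NP) := by
        ring
      rw [e1, abs_mul]
      have e2 : 0 ≤ 1 / NQ - 1 / NP := sub_nonneg.2 (one_div_le_one_div_of_le hNQ0 hle)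
      rw [abs_of_nonneg e2]
      apply le_of_eq
      have e3 : NQ * (1 / NQ - 1 / NP) = 1 - NQ / NP := by field_simp
      calc NQ * (|χ x - χ y| * (1 / NQ - 1 / NP)) = |χ x - χ y| * (NQ * (1 / NQ - 1 / NP)) := by ring
        _ = _ := by rw [e3]; ring
    · have hQ' : ¬ (g x = Q) := fun h => hQ h.symm
      have hQ'' : ¬ (g y = Q) := fun h => hQ' (hxy.trans h)
      have E1 : cs g Q (addPt R x) = cs g Q R := by rw [cs_addPt, if_neg hQ', add_zero]
      have E2 : cs g Q (fun v => χ v * addPt R x v) = cs g Q (fun v => χ v * R v) := by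
        rw [cs_mul_addPt, if_neg hQ', add_zero]
      have E3 : cs g Q (fun v => χ v * addPt R y v) = cs g Q (fun v => χ v * R v) := by
        rw [cs_mul_addPt, if_neg hQ'', add_zero]
      rw [if_neg hQ, add_zero, E1, E2, E3]
      by_cases hP : h Q = f x
      · rw [if_pos hP, hP, F1, F2, F3, F4]
        have e1 : cs g Q (fun v => χ v * R v) / cs g Q R -
            (cs f (f x) (fun v => χ v * R v) + χ x) / NP -
            (cs g Q (fun v => χ v * R v) / cs g Q R -
            (cs f (f x) (fun v => χ v * R v) + χ y) / NP) = -((χ x - χ y) / NP) := by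
          ring
        rw [e1, abs_neg, abs_div, abs_of_pos hNP0]
        apply le_of_eq
        ring
      · have hP' : ¬ (f x = h Q) := fun h => hP h.symm
        have hP'' : ¬ (f y = h Q) := fun h => hP' (hfxy.trans h)
        have G1 : cs f (h Q) (addPt R x) = cs f (h Q) R := by rw [cs_addPt, if_neg hP', add_zero]
        have G2 : cs f (h Q) (fun v => χ v * addPt R x v) = cs f (h Q) (fun v => χ v * R v) := by
          rw [cs_mul_addPt, if_neg hP', add_zero]
        have G3 : cs f (h Q) (fun v => χ v * addPt R y v) = cs f (h Q) (fun v => χ v * R v) := by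
          rw [cs_mul_addPt, if_neg hP'', add_zero]
        have G4 : cs f (h Q) (addPt R y) = cs f (h Q) R := by rw [cs_addPt, if_neg hP'', add_zero]
        rw [if_neg hP, G1, G2, G3, G4, sub_self, abs_zero, mul_zero]
  have hsum : xd (addPt R x) (addPt R y) g h χ ≤
      ∑ Q, ((if h Q = f x then |χ x - χ y| * (cs g Q R / NP) else 0) +
      (if Q = g x then |χ x - χ y| * (1 - NQ / NP - cs g (g x) R / NP) else 0)) :=
    Finset.sum_le_sum fun Q _ => hterm Q
  refine hsum.trans (le_of_eq ?_)
  rw [Finset.sum_add_distrib, Finset.sum_ite_eq', if_pos (Finset.mem_univ _), ← Finset.sum_filter,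
    ← Finset.mul_sum, ← Finset.sum_div]
  have e : ∑ Q ∈ Finset.univ.filter (fun Q => h Q = f x), cs g Q R = cs f (f x) R :=
    (cs_comp g h (f x) R).symm
  have hfx : h (g x) = f x := rfl
  rw [e]
  have e1 : cs f (f x) R = NP - 1 := by rw [hNP]; ring
  have e2 : cs g (g x) R = NQ - 1 := by rw [hNQ]; ring
  rw [e1, e2]
  field_simp
  ring

/-! ### Features of natural multiplicities -/

lemma sum_thr_le {a b s : ℕ} (hab : a ≤ b) (hb : b ≤ s) (x y : ℝ) :
    ∑ t ∈ Finset.range s, |(if t < a then x else 0) - (if t < b then y else 0)| =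
      dst a b x y := by
  have hc : ∀ c : ℕ, c ≤ s → ∀ z : ℝ, ∑ t ∈ Finset.range s, (if t < c then z else 0) = c * z := by
    intro c hc z
    rw [← Finset.sum_filter]
    have : (Finset.range s).filter (fun t => t < c) = Finset.range c := by
      ext t
      simp only [Finset.mem_filter, Finset.mem_range]
      omega
    rw [this, Finset.sum_const, Finset.card_range, nsmul_eq_mul]
  have h1 : ∀ t ∈ Finset.range s, |(if t < a then x else 0) - (if t < b then y else 0)| =
      (if t < a then |x - y| else 0) + ((if t < b then |y| else 0) - (if t < a then |y| else 0)) := by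
    intro t _
    by_cases h1 : t < a
    · have h2 : t < b := by omega
      simp [h1, h2]
    · by_cases h2 : t < b
      · simp [h1, h2]
      · simp [h1, h2]
  rw [Finset.sum_congr rfl h1, Finset.sum_add_distrib, Finset.sum_sub_distrib, hc a (hab.trans hb),
    hc b hb, hc a (hab.trans hb)]
  have hab' : (a : ℝ) ≤ b := by exact_mod_cast hab
  unfold dst
  rw [min_eq_left hab', pos_of_nonpos (by linarith), pos_of_nonneg (by linarith : (0:ℝ) ≤ b - a)]
  ring

lemma sum_thr {a b s : ℕ} (ha : a ≤ s) (hb : b ≤ s) (x y : ℝ) :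
    ∑ t ∈ Finset.range s, |(if t < a then x else 0) - (if t < b then y else 0)| =
      dst a b x y := by
  rcases le_total a b with h | h
  · exact sum_thr_le h hb x y
  · rw [← dst_symm, ← sum_thr_le h ha]
    exact Finset.sum_congr rfl fun t _ => abs_sub_comm _ _

/-- The natural number of points in a cell. -/
def nc (g : M → L) (Q : L) (S : M → ℕ) : ℕ := ∑ v, if g v = Q then S v else 0

lemma nc_cast (g : M → L) (Q : L) (S : M → ℕ) : (nc g Q S : ℝ) = cs g Q (fun v => (S v : ℝ)) := by
  unfold nc cs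
  push_cast
  rfl

lemma nc_le (g : M → L) (Q : L) (S : M → ℕ) : nc g Q S ≤ ∑ v, S v :=
  Finset.sum_le_sum fun v _ => by split_ifs <;> simp

/-- The feature. -/
noncomputable def ft (g : M → L) (h : L → L) (χ : M → ℝ) (S : M → ℕ) (Q : L) (t : ℕ) : ℝ :=
  if t < nc g Q S then
    cs g Q (fun v => χ v * S v) / cs g Q (fun v => (S v : ℝ)) -
      cs (fun v => h (g v)) (h Q) (fun v => χ v * S v) /
        cs (fun v => h (g v)) (h Q) (fun v => (S v : ℝ))
  else 0

lemma xd_eq (g : M → L) (h : L → L) (χ : M → ℝ) {S T : M → ℕ} {s : ℕ} (hS : ∑ v, S v ≤ s)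
    (hT : ∑ v, T v ≤ s) :
    xd (fun v => (S v : ℝ)) (fun v => (T v : ℝ)) g h χ =
      ∑ Q, ∑ t ∈ Finset.range s, |ft g h χ S Q t - ft g h χ T Q t| := by
  unfold xd ft
  refine Finset.sum_congr rfl fun Q _ => ?_
  rw [sum_thr ((nc_le g Q S).trans hS) ((nc_le g Q T).trans hT), nc_cast, nc_cast]

lemma xd_triangle (g : M → L) (h : L → L) (χ : M → ℝ) {S T U : M → ℕ} {s : ℕ} (hS : ∑ v, S v ≤ s)
    (hT : ∑ v, T v ≤ s) (hU : ∑ v, U v ≤ s) :
    xd (fun v => (S v : ℝ)) (fun v => (U v : ℝ)) g h χ ≤
      xd (fun v => (S v : ℝ)) (fun v => (T v : ℝ)) g h χ +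
      xd (fun v => (T v : ℝ)) (fun v => (U v : ℝ)) g h χ := by
  rw [xd_eq g h χ hS hU, xd_eq g h χ hS hT, xd_eq g h χ hT hU, ← Finset.sum_add_distrib]
  refine Finset.sum_le_sum fun Q _ => ?_
  rw [← Finset.sum_add_distrib]
  exact Finset.sum_le_sum fun t _ => abs_sub_le _ _ _

lemma xd_symm (S T : M → ℝ) (g : M → L) (h : L → L) (χ : M → ℝ) :
    xd T S g h χ = xd S T g h χ := by
  unfold xd
  exact Finset.sum_congr rfl fun Q _ => dst_symm _ _ _ _

end Pool.Agent.MP_12e089_an.LogS
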