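import Pool.Agent.MP_12e089_an.LogS.Emb
import Pool.Agent.MP_12e089_an.Main

set_option linter.unusedSectionVars false

/-!
The embedding with distortion `O(1 + log s)`.
-/

namespace Pool.Agent.MP_12e089_an.LogS

open Finset

variable {M Ω : Type} [Fintype M] [DecidableEq M] [Fintype Ω] [DecidableEq Ω]

/-- `d` is a finite dimensional `ℓ_1` distance on the multiplicity functions of mass at most `s`. -/
def Rep (M : Type) [Fintype M] (s : ℕ) (d : (M → ℕ) → (M → ℕ) → ℝ) : Prop :=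
  ∃ (I : Type) (_ : Fintype I) (F : (M → ℕ) → I → ℝ),
    ∀ S T, ∑ v, S v ≤ s → ∑ v, T v ≤ s → l1 (F S) (F T) = d S T

lemma Rep.congr {s : ℕ} {d d' : (M → ℕ) → (M → ℕ) → ℝ} (h : Rep M s d)
    (hd : ∀ S T, d S T = d' S T) : Rep M s d' := by
  obtain ⟨I, hI, F, hF⟩ := h
  exact ⟨I, hI, F, fun S T h1 h2 => (hF S T h1 h2).trans (hd S T)⟩

lemma Rep.zero (s : ℕ) : Rep M s (fun _ _ => 0) :=
  ⟨Empty, inferInstance, fun _ _ => 0, fun S T _ _ => by simp [l1]⟩

lemma Rep.add {s : ℕ} {d d' : (M → ℕ) → (M → ℕ) → ℝ} (h : Rep M s d) (h' : Rep M s d') :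
    Rep M s (fun S T => d S T + d' S T) := by
  obtain ⟨I, hI, F, hF⟩ := h
  obtain ⟨I', hI', F', hF'⟩ := h'
  refine ⟨I ⊕ I', inferInstance, fun S => Sum.elim (F S) (F' S), fun S T h1 h2 => ?_⟩
  change l1 (Sum.elim (F S) (F' S)) (Sum.elim (F T) (F' T)) = d S T + d' S T
  rw [← hF S T h1 h2, ← hF' S T h1 h2]
  unfold l1
  rw [Fintype.sum_sum_type]
  rfl

lemma Rep.smul {s : ℕ} {d : (M → ℕ) → (M → ℕ) → ℝ} (h : Rep M s d) {c : ℝ} (hc : 0 ≤ c) :
    Rep M s (fun S T => c * d S T) := by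
  obtain ⟨I, hI, F, hF⟩ := h
  refine ⟨I, hI, fun S i => c * F S i, fun S T h1 h2 => ?_⟩
  change l1 (fun i => c * F S i) (fun i => c * F T i) = c * d S T
  rw [← hF S T h1 h2]
  unfold l1
  rw [Finset.mul_sum]
  refine Finset.sum_congr rfl fun i _ => ?_
  rw [← mul_sub, abs_mul, abs_of_nonneg hc]

lemma Rep.sum {s : ℕ} {ι : Type*} (I : Finset ι) {d : ι → (M → ℕ) → (M → ℕ) → ℝ}
    (h : ∀ i ∈ I, Rep M s (d i)) : Rep M s (fun S T => ∑ i ∈ I, d i S T) := by
  classical
  induction I using Finset.induction_on with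
  | empty =>
    refine (Rep.zero (M := M) s).congr fun S T => ?_
    simp
  | insert a I ha ih =>
    have h1 := (h a (Finset.mem_insert_self _ _)).add
      (ih fun i hi => h i (Finset.mem_insert_of_mem hi))
    refine h1.congr fun S T => ?_
    rw [Finset.sum_insert ha]

lemma rep_xp (en : M → Ω → Bool) (s : ℕ) (J J' : Finset Ω) (ω : Ω) :
    Rep M s (fun S T => xp en (fun v => (S v : ℝ)) (fun v => (T v : ℝ)) J J' ω) := by
  refine ⟨(Ω → Bool) × Fin s, inferInstance,
    fun S p => ft (fun v => mask J' (en v)) (mask J) (ind en ω) S p.1 p.2, fun S T h1 h2 => ?_⟩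
  change l1 (fun p : (Ω → Bool) × Fin s => ft (fun v => mask J' (en v)) (mask J) (ind en ω) S p.1 p.2)
    (fun p : (Ω → Bool) × Fin s => ft (fun v => mask J' (en v)) (mask J) (ind en ω) T p.1 p.2) =
    xd (fun v => (S v : ℝ)) (fun v => (T v : ℝ)) (fun v => mask J' (en v)) (mask J) (ind en ω)
  rw [xd_eq _ _ _ h1 h2]
  unfold l1
  rw [Fintype.sum_prod_type]
  refine Finset.sum_congr rfl fun Q _ => ?_
  exact (Finset.sum_range (fun t => |ft (fun v => mask J' (en v)) (mask J) (ind en ω) S Q t -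
    ft (fun v => mask J' (en v)) (mask J) (ind en ω) T Q t|)).symm

lemma rep_bd (en : M → Ω → Bool) (s : ℕ) :
    Rep M s (fun S T => bd en (fun v => (S v : ℝ)) (fun v => (T v : ℝ))) := by
  unfold bd
  apply Rep.sum
  intro ω _
  refine ⟨Unit, inferInstance, fun S _ => ∑ v, ind en ω v * (S v : ℝ), fun S T _ _ => ?_⟩
  simp [l1]

lemma rep_wsum {s : ℕ} {X : (M → ℕ) → (M → ℕ) → ℕ → ℕ → ℝ}
    (h : ∀ a b, Rep M s (fun S T => X S T a b)) (Q : ℕ) : Rep M s (fun S T => wsum (X S T) Q) := by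
  unfold wsum
  apply Rep.sum
  intro j _
  apply Rep.smul _ (by positivity)
  apply Rep.sum
  intro k _
  exact h _ _

lemma rep_tot (en : M → Ω → Bool) (s q : ℕ) :
    Rep M s (fun S T => tot en (fun v => (S v : ℝ)) (fun v => (T v : ℝ)) q) := by
  unfold tot
  apply (rep_bd en s).add
  apply Rep.smul _ (by positivity)
  apply Rep.sum
  intro w _
  unfold tw
  apply Rep.add
  · apply rep_wsum
    intro a b
    apply Rep.sum
    intro ω _
    exact rep_xp en s _ _ ω
  · apply Rep.smul _ (by positivity)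
    apply Rep.sum
    intro k _
    apply Rep.sum
    intro ω _
    exact rep_xp en s _ _ ω

/-! ### Paths -/

/-- The multiplicity function of a sequence of points. -/
def ms {s : ℕ} (a : Fin s → M) : M → ℕ := fun v => ∑ i, if a i = v then 1 else 0

lemma ms_sum {s : ℕ} (a : Fin s → M) : ∑ v, ms a v = s := by
  unfold ms
  rw [Finset.sum_comm]
  have : ∀ i, ∑ v, (if a i = v then 1 else 0) = 1 := by
    intro i
    rw [Finset.sum_ite_eq, if_pos (Finset.mem_univ _)]
  rw [Finset.sum_congr rfl fun i _ => this i]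
  simp

lemma ms_enum {s : ℕ} {a : Fin s → M} (ha : Function.Injective a) {S : Finset M}
    (hS : ∀ y, y ∈ S ↔ ∃ i, a i = y) (v : M) : ms a v = if v ∈ S then 1 else 0 := by
  unfold ms
  split_ifs with h
  · obtain ⟨i, hi⟩ := (hS v).1 h
    rw [Finset.sum_eq_single i]
    · rw [if_pos hi]
    · intro j _ hj
      rw [if_neg fun h' => hj (ha (h'.trans hi.symm))]
    · intro h'; exact absurd (Finset.mem_univ _) h'
  · apply Finset.sum_eq_zero
    intro i _
    rw [if_neg fun h' => h ((hS v).2 ⟨i, h'⟩)]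

lemma l1_path {I : Type} [Fintype I] (g : ℕ → I → ℝ) (n : ℕ) :
    l1 (g 0) (g n) ≤ ∑ k ∈ Finset.range n, l1 (g k) (g (k + 1)) := by
  induction n with
  | zero => simp [l1]
  | succ n ih =>
    rw [Finset.sum_range_succ]
    exact (l1_triangle _ (g n) _).trans (add_le_add ih le_rfl)

/-- The multiplicities outside the index `k`. -/
def rest {s : ℕ} (a : Fin s → M) (k : Fin s) : M → ℕ :=
  fun v => ∑ i ∈ Finset.univ.erase k, if a i = v then 1 else 0

lemma rest_sum {s : ℕ} (a : Fin s → M) (k : Fin s) : ∑ v, rest a k v + 1 = s := by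
  unfold rest
  rw [Finset.sum_comm]
  have : ∀ i ∈ Finset.univ.erase k, ∑ v, (if a i = v then 1 else 0) = 1 := by
    intro i _
    rw [Finset.sum_ite_eq, if_pos (Finset.mem_univ _)]
  rw [Finset.sum_congr rfl this, Finset.sum_const, smul_eq_mul, mul_one, Finset.card_erase_of_mem
    (Finset.mem_univ _), Finset.card_univ, Fintype.card_fin]
  have := k.2
  omega

lemma ms_rest {s : ℕ} (a : Fin s → M) (k : Fin s) :
    (fun v => (ms a v : ℝ)) = addPt (fun v => (rest a k v : ℝ)) (a k) := by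
  funext v
  unfold ms rest addPt
  rw [← Finset.add_sum_erase _ _ (Finset.mem_univ k)]
  push_cast
  by_cases h : a k = v
  · rw [if_pos h, if_pos h.symm, add_comm]
  · rw [if_neg h, if_neg (Ne.symm h)]; ring

lemma rest_congr {s : ℕ} {a b : Fin s → M} {k : Fin s} (h : ∀ i, i ≠ k → a i = b i) :
    rest a k = rest b k := by
  funext v
  unfold rest
  refine Finset.sum_congr rfl fun i hi => ?_
  rw [h i (Finset.ne_of_mem_erase hi)]

/-- The main embedding theorem. -/
theorem embed_logS {s : ℕ} (hs : 0 < s) (ρ : M → M → ℝ) (hρ : ∀ x y, 0 ≤ ρ x y) [Nonempty Ω]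
    (en : M → Ω → Bool) (hen : Function.Injective en) {K : ℝ} (hK : 0 < K)
    (h1 : ∀ x y, K * ρ x y ≤ hammingDist (en x) (en y))
    (h2 : ∀ x y, (hammingDist (en x) (en y) : ℝ) ≤ 2 * K * ρ x y) :
    EmbedsL1 (fun μ ν : {μ : M → ℝ // ∃ S : Finset M, S.card = s ∧ μ = unif s S} =>
      W1 ρ μ.1 ν.1) (6 * (1 + 30 * Real.log s)) := by
  have hs1 : (1 : ℝ) ≤ s := by exact_mod_cast hs
  have hspos : (0 : ℝ) < s := by linarith
  have hlog : 0 ≤ Real.log s := Real.log_nonneg hs1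
  refine ⟨by linarith, ?_⟩
  obtain ⟨q, hq⟩ : ∃ q, Fintype.card Ω ≤ 2 ^ q := ⟨Fintype.card Ω, Nat.lt_two_pow_self.le⟩
  obtain ⟨I, hI, F, hF0⟩ := rep_tot en s q
  have hF : ∀ S T : M → ℕ, ∑ v, S v ≤ s → ∑ v, T v ≤ s →
      l1 (F S) (F T) = tot en (fun v => (S v : ℝ)) (fun v => (T v : ℝ)) q := hF0
  obtain ⟨E, hE⟩ := exists_toLOne I
  have hham : ∀ x y, hm en x y = (hammingDist (en x) (en y) : ℝ) := by
    intro x y
    rw [hm_eq]
    rfl
  have hch : ∀ μ : {μ : M → ℝ // ∃ S : Finset M, S.card = s ∧ μ = unif s S},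
      ∃ (S : Finset M) (e : Fin s → M), μ.1 = unif s S ∧ Function.Injective e ∧
        ∀ y, y ∈ S ↔ ∃ i, e i = y := by
    rintro ⟨μ, S, hS, hμ⟩
    obtain ⟨e, he, heS⟩ := exists_enum hS
    exact ⟨S, e, hμ, he, heS⟩
  choose S e hμ he heS using hch
  refine ⟨fun μ => E (F (ms (e μ))), s * K / 3, by positivity, fun μ ν => ?_⟩
  rw [hE]
  constructor
  · -- lower bound
    rw [hF _ _ (ms_sum _).le (ms_sum _).le]
    have hT : ∑ v, (ms (e μ) v : ℝ) = ∑ v, (ms (e ν) v : ℝ) := by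
      have := (ms_sum (e μ)).trans (ms_sum (e ν)).symm
      exact_mod_cast this
    obtain ⟨π, p0, p1, p2, p3⟩ := lower hen (S := fun v => (ms (e μ) v : ℝ))
      (T := fun v => (ms (e ν) v : ℝ)) (fun v => Nat.cast_nonneg _) (fun v => Nat.cast_nonneg _)
      hT q
    have hW : W1 ρ μ.1 ν.1 ≤ ∑ x, ∑ y, π x y / s * ρ x y := by
      apply csInf_le
      · refine ⟨0, ?_⟩
        rintro c ⟨π, h0, -, -, rfl⟩
        exact Finset.sum_nonneg fun x _ => Finset.sum_nonneg fun y _ => mul_nonneg (h0 x y) (hρ x y)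
      · refine ⟨fun x y => π x y / s, fun x y => div_nonneg (p0 x y) hspos.le, ?_, ?_, rfl⟩
        · intro x
          rw [← Finset.sum_div, p1 x, hμ μ, ms_enum (he μ) (heS μ)]
          unfold unif
          split_ifs <;> simp
        · intro y
          rw [← Finset.sum_div, p2 y, hμ ν, ms_enum (he ν) (heS ν)]
          unfold unif
          split_ifs <;> simp
    have hcost : K * ∑ x, ∑ y, π x y / s * ρ x y ≤ 1 / s * ∑ x, ∑ y, π x y * hm en x y := by
      rw [Finset.mul_sum, Finset.mul_sum]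
      refine Finset.sum_le_sum fun x _ => ?_
      rw [Finset.mul_sum, Finset.mul_sum]
      refine Finset.sum_le_sum fun y _ => ?_
      have h3 := mul_le_mul_of_nonneg_left (h1 x y) (div_nonneg (p0 x y) hspos.le)
      rw [hham]
      calc K * (π x y / s * ρ x y) = π x y / s * (K * ρ x y) := by ring
        _ ≤ π x y / s * (hammingDist (en x) (en y) : ℝ) := h3
        _ = _ := by ring
    have h4 : K * W1 ρ μ.1 ν.1 ≤ 1 / s * (3 * tot en (fun v => (ms (e μ) v : ℝ))
        (fun v => (ms (e ν) v : ℝ)) q) :=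
      ((mul_le_mul_of_nonneg_left hW hK.le).trans hcost).trans
        (mul_le_mul_of_nonneg_left p3 (by positivity))
    have h5 := mul_le_mul_of_nonneg_left h4 (by positivity : (0 : ℝ) ≤ s / 3)
    calc s * K / 3 * W1 ρ μ.1 ν.1 = s / 3 * (K * W1 ρ μ.1 ν.1) := by ring
      _ ≤ s / 3 * (1 / s * (3 * tot en (fun v => (ms (e μ) v : ℝ))
        (fun v => (ms (e ν) v : ℝ)) q)) := h5
      _ = tot en (fun v => (ms (e μ) v : ℝ)) (fun v => (ms (e ν) v : ℝ)) q := by
          field_simp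
  · -- upper bound
    obtain ⟨σ, hσ⟩ := exists_perm_le hs ρ hρ (S := S μ) (T := S ν) (e μ) (e ν) (he μ) (he ν)
      (heS μ) (heS ν)
    rw [← hμ μ, ← hμ ν] at hσ
    set a : ℕ → Fin s → M := fun k i => if (i : ℕ) < k then e ν (σ i) else e μ i with ha
    have ha0 : a 0 = e μ := by funext i; simp [ha]
    have has : ms (a s) = ms (e ν) := by
      have e1 : a s = fun i => e ν (σ i) := by
        funext i
        simp [ha]
      rw [e1]
      funext v
      unfold ms
      exact Equiv.sum_comp σ (fun i => if e ν i = v then 1 else 0)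
    have hstep : ∀ k ∈ Finset.range s, l1 (F (ms (a k))) (F (ms (a (k + 1)))) ≤
        (1 + 30 * Real.log s) * (if h : k < s then hm en (e μ ⟨k, h⟩) (e ν (σ ⟨k, h⟩)) else 0) := by
      intro k hk
      have hk' := Finset.mem_range.1 hk
      rw [dif_pos hk', hF _ _ (ms_sum _).le (ms_sum _).le]
      set kk : Fin s := ⟨k, hk'⟩ with hkk
      have e1 : a k kk = e μ kk := by simp [ha, hkk]
      have e2 : a (k + 1) kk = e ν (σ kk) := by simp [ha, hkk]
      have e3 : rest (a (k + 1)) kk = rest (a k) kk := by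
        apply rest_congr
        intro i hi
        have hne : (i : ℕ) ≠ k := fun h => hi (Fin.ext h)
        simp only [ha]
        by_cases h : (i : ℕ) < k
        · rw [if_pos h, if_pos (by omega)]
        · rw [if_neg h, if_neg (by omega)]
      rw [ms_rest (a k) kk, ms_rest (a (k + 1)) kk, e1, e2, e3]
      by_cases hxy : e μ kk = e ν (σ kk)
      · rw [← hxy]
        have e4 : hm en (e μ kk) (e μ kk) = 0 := by simp [hm]
        have e5 : l1 (F (ms (a k))) (F (ms (a k))) = 0 := by simp [l1]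
        have e6 := hF (ms (a k)) (ms (a k)) (ms_sum _).le (ms_sum _).le
        rw [e5, ms_rest (a k) kk, e1] at e6
        rw [← e6, e4, mul_zero]
      · exact upper en hen hq (rest_sum (a k) kk) hxy
    have hpath := l1_path (fun k => F (ms (a k))) s
    simp only [has, ha0] at hpath
    refine (hpath.trans (Finset.sum_le_sum hstep)).trans ?_
    rw [← Finset.mul_sum]
    have e7 : ∑ k ∈ Finset.range s, (if h : k < s then hm en (e μ ⟨k, h⟩) (e ν (σ ⟨k, h⟩)) else 0) =
        ∑ i : Fin s, hm en (e μ i) (e ν (σ i)) := by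
      rw [Finset.sum_range]
      refine Finset.sum_congr rfl fun i _ => ?_
      rw [dif_pos i.2]
    rw [e7]
    have e8 : ∑ i, hm en (e μ i) (e ν (σ i)) ≤ 2 * K * ∑ i, ρ (e μ i) (e ν (σ i)) := by
      rw [Finset.mul_sum]
      refine Finset.sum_le_sum fun i _ => ?_
      rw [hham]
      exact h2 _ _
    have e9 : ∑ i, ρ (e μ i) (e ν (σ i)) ≤ s * W1 ρ μ.1 ν.1 := by
      have := mul_le_mul_of_nonneg_left hσ hspos.le
      calc ∑ i, ρ (e μ i) (e ν (σ i)) = s * ((1 / s) * ∑ i, ρ (e μ i) (e ν (σ i))) := by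
            field_simp
        _ ≤ _ := this
    calc (1 + 30 * Real.log s) * ∑ i, hm en (e μ i) (e ν (σ i))
        ≤ (1 + 30 * Real.log s) * (2 * K * (s * W1 ρ μ.1 ν.1)) := by
          apply mul_le_mul_of_nonneg_left _ (by linarith)
          exact e8.trans (mul_le_mul_of_nonneg_left e9 (by positivity))
      _ = 6 * (1 + 30 * Real.log s) * (s * K / 3) * W1 ρ μ.1 ν.1 := by ring

lemma rho1_eq_zero {Δ d : ℕ} {x y : Grid Δ d} (h : rho1 x y ≤ 0) : x = y := by
  funext i
  have h0 : rho1 x y = 0 := le_antisymm h (rho1_nonneg x y)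
  unfold rho1 at h0
  have h1 := (Finset.sum_eq_zero_iff_of_nonneg (fun i _ => abs_nonneg _)).1 h0 i (Finset.mem_univ _)
  have h2 := sub_eq_zero.1 (abs_eq_zero.1 h1)
  exact Fin.ext (by exact_mod_cast h2)

lemma rho2_eq_zero {Δ d : ℕ} {x y : Grid Δ d} (h : rho2 x y ≤ 0) : x = y := by
  funext i
  have h0 : rho2 x y = 0 := le_antisymm h (rho2_nonneg x y)
  unfold rho2 at h0
  have hs := (Real.sqrt_eq_zero (Finset.sum_nonneg fun i _ => sq_nonneg _)).1 h0
  have h1 := (Finset.sum_eq_zero_iff_of_nonneg (fun i _ => sq_nonneg _)).1 hs i (Finset.mem_univ _)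
  have h2 := sub_eq_zero.1 (pow_eq_zero_iff (two_ne_zero) |>.1 h1)
  exact Fin.ext (by exact_mod_cast h2)

/-- The `O(1 + log s)` bound on the grid. -/
theorem grid_logS (Δ d s : ℕ) (hΔ : 2 ≤ Δ) (hd : 1 ≤ d) (hs : 1 ≤ s) :
    EmbedsL1 (fun μ ν : Y Δ d s => W1 rho1 μ.1 ν.1) (6 * (1 + 30 * Real.log s)) ∧
    EmbedsL1 (fun μ ν : Y Δ d s => W1 rho2 μ.1 ν.1) (6 * (1 + 30 * Real.log s)) := by
  classical
  have : Nonempty (Fin d) := ⟨⟨0, hd⟩⟩
  have : Nonempty (Fin Δ) := ⟨⟨0, by omega⟩⟩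
  have : Nonempty (Fin (d * (2 * Δ))) := ⟨⟨0, by positivity⟩⟩
  constructor
  · have e1 := enc1 Δ d
    refine embed_logS hs rho1 rho1_nonneg
      (enc Δ (fun (i : Fin d) (x : Grid Δ d) => (x i : ℕ))) ?_ one_pos
      (fun x y => by rw [e1]; linarith [rho1_nonneg x y])
      (fun x y => by rw [e1]; linarith [rho1_nonneg x y])
    intro x y hxy
    apply rho1_eq_zero
    rw [← e1, hxy, hammingDist_self]
    simp
  · have e2 := enc2_bounds Δ d
    have hpos : (0 : ℝ) < 2 ^ d / Real.sqrt 3 := by positivity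
    refine embed_logS hs rho2 rho2_nonneg
      (enc (d * (2 * Δ)) (phi2 Δ d)) ?_ (K := 2 ^ d / Real.sqrt 3) hpos
      (fun x y => (e2 x y).1) (fun x y => (e2 x y).2)
    intro x y hxy
    apply rho2_eq_zero
    have h := (e2 x y).1
    rw [hxy, hammingDist_self, Nat.cast_zero] at h
    by_contra hcon
    push Not at hcon
    have : 0 < 2 ^ d / Real.sqrt 3 * rho2 x y := mul_pos hpos hcon
    linarith

end Pool.Agent.MP_12e089_an.LogS
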