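import Mathlib

/-!
The potential of a cell and the merging inequality.
-/

namespace Pool.Agent.MP_12e089_an.LogS

open Finset

/-- Positive part. -/
noncomputable def pos (x : ℝ) : ℝ := max x 0

lemma pos_nonneg (x : ℝ) : 0 ≤ pos x := le_max_right _ _
lemma le_pos (x : ℝ) : x ≤ pos x := le_max_left _ _
lemma pos_of_nonneg {x : ℝ} (h : 0 ≤ x) : pos x = x := max_eq_left h
lemma pos_of_nonpos {x : ℝ} (h : x ≤ 0) : pos x = 0 := max_eq_right h
lemma pos_zero : pos 0 = 0 := max_self 0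

lemma pos_sub_pos (x : ℝ) : pos x - pos (-x) = x := by
  rcases le_total 0 x with h | h
  · rw [pos_of_nonneg h, pos_of_nonpos (by linarith)]; ring
  · rw [pos_of_nonpos h, pos_of_nonneg (by linarith)]; ring

lemma pos_add_le (x y : ℝ) : pos (x + y) ≤ pos x + pos y := by
  rcases le_total 0 (x + y) with h | h
  · rw [pos_of_nonneg h]; exact add_le_add (le_pos x) (le_pos y)
  · rw [pos_of_nonpos h]; exact add_nonneg (pos_nonneg x) (pos_nonneg y)

lemma pos_mono {x y : ℝ} (h : x ≤ y) : pos x ≤ pos y := max_le_max h le_rfl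

lemma pos_le_add_abs (x y : ℝ) : pos x ≤ pos y + |x - y| := by
  have h1 : pos x ≤ pos y + pos (x - y) := by
    have := pos_add_le y (x - y)
    rwa [add_sub_cancel] at this
  have h2 : pos (x - y) ≤ |x - y| := max_le (le_abs_self _) (abs_nonneg _)
  linarith

lemma pos_mul {a : ℝ} (ha : 0 ≤ a) (x : ℝ) : pos (a * x) = a * pos x := by
  unfold pos
  rw [mul_max_of_nonneg _ _ ha, mul_zero]

lemma pos_sum_le {ι : Type*} (I : Finset ι) (f : ι → ℝ) : pos (∑ i ∈ I, f i) ≤ ∑ i ∈ I, pos (f i) := by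
  classical
  induction I using Finset.induction_on with
  | empty => simp [pos_zero]
  | insert a I ha ih =>
    rw [Finset.sum_insert ha, Finset.sum_insert ha]
    exact (pos_add_le _ _).trans (add_le_add le_rfl ih)

/-- The deviation of the composition of the leftover from the background. -/
noncomputable def dev (n n' m m' u u' : ℝ) : ℝ :=
  (u - m / n * pos (n - n')) - (u' - m' / n' * pos (n' - n))

/-- The potential of a cell. -/
noncomputable def pot (n n' m m' u u' A B : ℝ) : ℝ :=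
  1 / 2 * (m / n * (1 - m / n)) * pos (n - n') + 1 / 2 * (m' / n' * (1 - m' / n')) * pos (n' - n) +
    min (B + pos (-dev n n' m m' u u')) (A + pos (dev n n' m m' u u'))

lemma dev_symm (n n' m m' u u' : ℝ) : dev n' n m' m u' u = -dev n n' m m' u u' := by
  unfold dev; ring

lemma pot_symm (n n' m m' u u' A B : ℝ) : pot n' n m' m u' u B A = pot n n' m m' u u' A B := by
  unfold pot
  rw [dev_symm, neg_neg, min_comm]
  ring

/-- The distance of two features. -/
noncomputable def dst (n n' q q' : ℝ) : ℝ :=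
  min n n' * |q - q'| + pos (n - n') * |q| + pos (n' - n) * |q'|

lemma dst_symm (n n' q q' : ℝ) : dst n' n q' q = dst n n' q q' := by
  unfold dst
  rw [min_comm, abs_sub_comm]
  ring

lemma frac_mem {m n : ℝ} (h0 : 0 ≤ m) (h1 : m ≤ n) : 0 ≤ m / n ∧ m / n ≤ 1 := by
  have hn : 0 ≤ n := h0.trans h1
  exact ⟨div_nonneg h0 hn, div_le_one_of_le₀ h1 hn⟩

lemma frac_mul {m n : ℝ} (h0 : 0 ≤ m) (h1 : m ≤ n) : m / n * n = m := by
  rcases eq_or_ne n 0 with h | h
  · subst h
    have : m = 0 := le_antisymm h1 h0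
    simp [this]
  · field_simp

/-- The inequality for a child. -/
lemma child_le {n n' m m' u u' A B p p' : ℝ} (hm : 0 ≤ m) (hmn : m ≤ n) (hm' : 0 ≤ m')
    (hmn' : m' ≤ n') (hp : 0 ≤ p) (hp1 : p ≤ 1) (hp' : 0 ≤ p') (hp1' : p' ≤ 1) (hpp : p' ≤ p)
    (hfl : A - B = (m - m') - (u - u')) :
    1 / 2 * (p * (1 - p)) * pos (n - n') + 1 / 2 * (p' * (1 - p')) * pos (n' - n) +
      (B + pos (-((u - p * pos (n - n')) - (u' - p' * pos (n' - n))))) ≤
    pot n n' m m' u u' A B + 3 / 2 * dst n n' (m / n - p) (m' / n' - p') := by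
  obtain ⟨a0, a1⟩ := frac_mem hm hmn
  obtain ⟨b0, b1⟩ := frac_mem hm' hmn'
  have hmul := frac_mul hm hmn
  have hmul' := frac_mul hm' hmn'
  set r := m / n with hr
  set r' := m' / n' with hr'
  have hK := pos_nonneg (n - n')
  have hK' := pos_nonneg (n' - n)
  have hKK := pos_sub_pos (n - n')
  rw [neg_sub] at hKK
  -- `z`
  have hz : (m - m') - (r * pos (n - n') - r' * pos (n' - n)) = min n n' * (r - r') := by
    rcases le_total n' n with h | h
    · rw [pos_of_nonneg (sub_nonneg.2 h), pos_of_nonpos (sub_nonpos.2 h), min_eq_right h]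
      linear_combination -hmul + hmul'
    · rw [pos_of_nonneg (sub_nonneg.2 h), pos_of_nonpos (sub_nonpos.2 h), min_eq_left h]
      linear_combination -hmul + hmul'
  have hmin : 0 ≤ min n n' := le_min (hm.trans hmn) (hm'.trans hmn')
  have hzlow : -(min n n' * |(r - p) - (r' - p')|) ≤ min n n' * (r - r') := by
    rw [← mul_neg]
    apply mul_le_mul_of_nonneg_left _ hmin
    have := neg_abs_le ((r - p) - (r' - p'))
    linarith
  -- `min`
  have hdev : dev n n' m m' u u' = (u - r * pos (n - n')) - (u' - r' * pos (n' - n)) := rfl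
  have hps := pos_sub_pos (dev n n' m m' u u')
  have hAB : A + pos (dev n n' m m' u u') = B + pos (-dev n n' m m' u u') + min n n' * (r - r') := by
    rw [← hz]
    rw [hdev] at hps ⊢
    linarith
  have hmi : B + pos (-dev n n' m m' u u') - min n n' * |(r - p) - (r' - p')| ≤
      min (B + pos (-dev n n' m m' u u')) (A + pos (dev n n' m m' u u')) := by
    apply le_min
    · have : 0 ≤ min n n' * |(r - p) - (r' - p')| := mul_nonneg hmin (abs_nonneg _)
      linarith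
    · rw [hAB]; linarith
  -- shift of the background in the deviation
  have hsh : pos (-((u - p * pos (n - n')) - (u' - p' * pos (n' - n)))) ≤
      pos (-dev n n' m m' u u') + (pos (n - n') * |r - p| + pos (n' - n) * |r' - p'|) := by
    refine (pos_le_add_abs _ (-dev n n' m m' u u')).trans ?_
    apply add_le_add le_rfl
    rw [hdev]
    have e : -((u - p * pos (n - n')) - (u' - p' * pos (n' - n))) -
        -((u - r * pos (n - n')) - (u' - r' * pos (n' - n))) =
        pos (n - n') * (p - r) + pos (n' - n) * (r' - p') := by ring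
    rw [e]
    refine (abs_add_le _ _).trans ?_
    rw [abs_mul, abs_mul, abs_of_nonneg hK, abs_of_nonneg hK', abs_sub_comm p r]
  -- shift in the quadratic term
  have hq : ∀ a b : ℝ, 0 ≤ a → a ≤ 1 → 0 ≤ b → b ≤ 1 → b * (1 - b) ≤ a * (1 - a) + |a - b| := by
    intro a b h1 h2 h3 h4
    have e : b * (1 - b) = a * (1 - a) + (b - a) * (1 - a - b) := by ring
    have e2 : (b - a) * (1 - a - b) ≤ |a - b| := by
      refine (le_abs_self _).trans ?_
      rw [abs_mul, abs_sub_comm]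
      have : |1 - a - b| ≤ 1 := by rw [abs_le]; constructor <;> linarith
      calc |a - b| * |1 - a - b| ≤ |a - b| * 1 := mul_le_mul_of_nonneg_left this (abs_nonneg _)
        _ = |a - b| := mul_one _
    linarith
  have h1 := mul_le_mul_of_nonneg_right (hq r p a0 a1 hp hp1) hK
  have h2 := mul_le_mul_of_nonneg_right (hq r' p' b0 b1 hp' hp1') hK'
  unfold pot dst
  rw [← hr, ← hr']
  have h3 : 0 ≤ min n n' * |(r - p) - (r' - p')| := mul_nonneg hmin (abs_nonneg _)
  nlinarith [h1, h2, hmi, hsh, h3]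

/-- The core inequality of a merge. -/
lemma core_le {Kp Km U U' p p' : ℝ} (hU : 0 ≤ U) (hUK : U ≤ Kp) (hU' : 0 ≤ U') (hUK' : U' ≤ Km)
    (hp : 0 ≤ p) (hp1 : p ≤ 1) (hp' : 0 ≤ p') (hpp : p' ≤ p) :
    min Kp Km * ((1 - U / Kp) * (U' / Km)) +
      pos (-((U / Kp * (Kp - min Kp Km) - p * (Kp - min Kp Km)) -
        (U' / Km * (Km - min Kp Km) - p' * (Km - min Kp Km)))) ≤
    1 / 2 * min Kp Km * (p * (1 - p) + p' * (1 - p')) + pos (p * Kp - U) + pos (U' - p' * Km) := by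
  obtain ⟨a0, a1⟩ := frac_mem hU hUK
  obtain ⟨b0, b1⟩ := frac_mem hU' hUK'
  have hmul := frac_mul hU hUK
  have hmul' := frac_mul hU' hUK'
  set α := U / Kp with hα
  set β := U' / Km with hβ
  have hKp : 0 ≤ Kp := hU.trans hUK
  have hKm : 0 ≤ Km := hU'.trans hUK'
  set μ := min Kp Km with hμ
  have hμ0 : 0 ≤ μ := le_min hKp hKm
  have hμ1 : 0 ≤ Kp - μ := sub_nonneg.2 (min_le_left _ _)
  have hμ2 : 0 ≤ Km - μ := sub_nonneg.2 (min_le_right _ _)
  have e1 : pos (p * Kp - U) = Kp * pos (p - α) := by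
    rw [← pos_mul hKp]; congr 1; linear_combination hmul
  have e2 : pos (U' - p' * Km) = Km * pos (β - p') := by
    rw [← pos_mul hKm]; congr 1; linear_combination -hmul'
  have h1 : (1 - α) * β ≤ (1 - p) * p' + pos (p - α) + pos (β - p') := by
    have s1 : 1 - α ≤ (1 - p) + pos (p - α) := by have := le_pos (p - α); linarith
    have s2 : β ≤ p' + pos (β - p') := by have := le_pos (β - p'); linarith
    have s3 := pos_nonneg (p - α)
    have s4 := pos_nonneg (β - p')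
    calc (1 - α) * β ≤ ((1 - p) + pos (p - α)) * β := mul_le_mul_of_nonneg_right s1 b0
      _ = (1 - p) * β + pos (p - α) * β := by ring
      _ ≤ (1 - p) * (p' + pos (β - p')) + pos (p - α) * 1 :=
          add_le_add (mul_le_mul_of_nonneg_left s2 (by linarith)) (mul_le_mul_of_nonneg_left b1 s3)
      _ ≤ _ := by nlinarith
  have h2 : (1 - p) * p' ≤ 1 / 2 * (p * (1 - p) + p' * (1 - p')) := by nlinarith
  have h3 : pos (-((α * (Kp - μ) - p * (Kp - μ)) - (β * (Km - μ) - p' * (Km - μ)))) ≤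
      (Kp - μ) * pos (p - α) + (Km - μ) * pos (β - p') := by
    have e : -((α * (Kp - μ) - p * (Kp - μ)) - (β * (Km - μ) - p' * (Km - μ))) =
        (Kp - μ) * (p - α) + (Km - μ) * (β - p') := by ring
    rw [e]
    refine (pos_add_le _ _).trans ?_
    rw [pos_mul hμ1, pos_mul hμ2]
  have h4 := mul_le_mul_of_nonneg_left (h1.trans (add_le_add (add_le_add h2 le_rfl) le_rfl)) hμ0
  rw [e1, e2]
  nlinarith [h3, h4]

/-- The merging inequality, first case. -/
theorem merge_of_le {ι : Type*} (I : Finset ι) (n n' m m' u u' A B : ι → ℝ)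
    (hm : ∀ i ∈ I, 0 ≤ m i ∧ m i ≤ n i) (hm' : ∀ i ∈ I, 0 ≤ m' i ∧ m' i ≤ n' i)
    (hu : ∀ i ∈ I, 0 ≤ u i ∧ u i ≤ pos (n i - n' i))
    (hu' : ∀ i ∈ I, 0 ≤ u' i ∧ u' i ≤ pos (n' i - n i))
    (hfl : ∀ i ∈ I, A i - B i = (m i - m' i) - (u i - u' i))
    (hpp : (∑ i ∈ I, m' i) / (∑ i ∈ I, n' i) ≤ (∑ i ∈ I, m i) / (∑ i ∈ I, n i))
    {Kp Km : ℝ} (hKp : Kp = ∑ i ∈ I, pos (n i - n' i)) (hKm : Km = ∑ i ∈ I, pos (n' i - n i))
    {U U' : ℝ} (hU : U = ∑ i ∈ I, u i) (hU' : U' = ∑ i ∈ I, u' i) :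
    pot (∑ i ∈ I, n i) (∑ i ∈ I, n' i) (∑ i ∈ I, m i) (∑ i ∈ I, m' i)
      (U / Kp * (Kp - min Kp Km)) (U' / Km * (Km - min Kp Km))
      (∑ i ∈ I, A i + min Kp Km * (U / Kp * (1 - U' / Km)))
      (∑ i ∈ I, B i + min Kp Km * ((1 - U / Kp) * (U' / Km))) ≤
    ∑ i ∈ I, pot (n i) (n' i) (m i) (m' i) (u i) (u' i) (A i) (B i) +
      3 / 2 * ∑ i ∈ I, dst (n i) (n' i) (m i / n i - (∑ i ∈ I, m i) / (∑ i ∈ I, n i))
        (m' i / n' i - (∑ i ∈ I, m' i) / (∑ i ∈ I, n' i)) := by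
  have hsm : 0 ≤ ∑ i ∈ I, m i := Finset.sum_nonneg fun i hi => (hm i hi).1
  have hsmn : ∑ i ∈ I, m i ≤ ∑ i ∈ I, n i := Finset.sum_le_sum fun i hi => (hm i hi).2
  have hsm' : 0 ≤ ∑ i ∈ I, m' i := Finset.sum_nonneg fun i hi => (hm' i hi).1
  have hsmn' : ∑ i ∈ I, m' i ≤ ∑ i ∈ I, n' i := Finset.sum_le_sum fun i hi => (hm' i hi).2
  obtain ⟨p0, p1⟩ := frac_mem hsm hsmn
  obtain ⟨p0', p1'⟩ := frac_mem hsm' hsmn'
  set p := (∑ i ∈ I, m i) / (∑ i ∈ I, n i) with hp
  set p' := (∑ i ∈ I, m' i) / (∑ i ∈ I, n' i) with hp'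
  have hU0 : 0 ≤ U := hU ▸ Finset.sum_nonneg fun i hi => (hu i hi).1
  have hUK : U ≤ Kp := by rw [hU, hKp]; exact Finset.sum_le_sum fun i hi => (hu i hi).2
  have hU0' : 0 ≤ U' := hU' ▸ Finset.sum_nonneg fun i hi => (hu' i hi).1
  have hUK' : U' ≤ Km := by rw [hU', hKm]; exact Finset.sum_le_sum fun i hi => (hu' i hi).2
  -- the sizes of the leftovers of the parent
  have hdiff : ∑ i ∈ I, n i - ∑ i ∈ I, n' i = Kp - Km := by
    rw [hKp, hKm, ← Finset.sum_sub_distrib, ← Finset.sum_sub_distrib]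
    refine Finset.sum_congr rfl fun i _ => ?_
    have := pos_sub_pos (n i - n' i)
    rw [neg_sub] at this
    exact this.symm
  have hKpos : pos (∑ i ∈ I, n i - ∑ i ∈ I, n' i) = Kp - min Kp Km := by
    rw [hdiff]
    rcases le_total Kp Km with h | h
    · rw [pos_of_nonpos (by linarith), min_eq_left h]; ring
    · rw [pos_of_nonneg (by linarith), min_eq_right h]
  have hKneg : pos (∑ i ∈ I, n' i - ∑ i ∈ I, n i) = Km - min Kp Km := by
    have : ∑ i ∈ I, n' i - ∑ i ∈ I, n i = Km - Kp := by linarith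
    rw [this]
    rcases le_total Kp Km with h | h
    · rw [pos_of_nonneg (by linarith), min_eq_left h]
    · rw [pos_of_nonpos (by linarith), min_eq_right h]; ring
  -- children
  have hch := Finset.sum_le_sum fun i hi => child_le (p := p) (p' := p') (hm i hi).1 (hm i hi).2
    (hm' i hi).1 (hm' i hi).2 p0 p1 p0' p1' hpp (hfl i hi)
  -- the deviations add up
  have hdv : pos (p * Kp - U) + pos (U' - p' * Km) ≤
      ∑ i ∈ I, pos (-((u i - p * pos (n i - n' i)) - (u' i - p' * pos (n' i - n i)))) := by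
    have s1 : ∀ i ∈ I, pos (-((u i - p * pos (n i - n' i)) - (u' i - p' * pos (n' i - n i)))) =
        pos (p * pos (n i - n' i) - u i) + pos (u' i - p' * pos (n' i - n i)) := by
      intro i hi
      rcases le_total (n' i) (n i) with h | h
      · have e1 : pos (n' i - n i) = 0 := pos_of_nonpos (by linarith)
        have e2 : u' i = 0 := le_antisymm (e1 ▸ (hu' i hi).2) (hu' i hi).1
        rw [e1, e2]
        have e3 : pos ((0 : ℝ) - p' * 0) = 0 := by simp [pos_zero]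
        rw [e3, add_zero]
        congr 1
        ring
      · have e1 : pos (n i - n' i) = 0 := pos_of_nonpos (by linarith)
        have e2 : u i = 0 := le_antisymm (e1 ▸ (hu i hi).2) (hu i hi).1
        rw [e1, e2]
        have e3 : pos (p * 0 - (0 : ℝ)) = 0 := by simp [pos_zero]
        rw [e3, zero_add]
        congr 1
        ring
    rw [Finset.sum_congr rfl s1, Finset.sum_add_distrib]
    apply add_le_add
    · have e : p * Kp - U = ∑ i ∈ I, (p * pos (n i - n' i) - u i) := by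
        rw [Finset.sum_sub_distrib, ← Finset.mul_sum, ← hKp, ← hU]
      rw [e]; exact pos_sum_le _ _
    · have e : U' - p' * Km = ∑ i ∈ I, (u' i - p' * pos (n' i - n i)) := by
        rw [Finset.sum_sub_distrib, ← Finset.mul_sum, ← hKm, ← hU']
      rw [e]; exact pos_sum_le _ _
  have hcore := core_le hU0 hUK hU0' hUK' p0 p1 p0' hpp
  -- assemble
  have hleft : pot (∑ i ∈ I, n i) (∑ i ∈ I, n' i) (∑ i ∈ I, m i) (∑ i ∈ I, m' i)
      (U / Kp * (Kp - min Kp Km)) (U' / Km * (Km - min Kp Km))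
      (∑ i ∈ I, A i + min Kp Km * (U / Kp * (1 - U' / Km)))
      (∑ i ∈ I, B i + min Kp Km * ((1 - U / Kp) * (U' / Km))) ≤
      1 / 2 * (p * (1 - p)) * (Kp - min Kp Km) + 1 / 2 * (p' * (1 - p')) * (Km - min Kp Km) +
      (∑ i ∈ I, B i + min Kp Km * ((1 - U / Kp) * (U' / Km)) +
        pos (-((U / Kp * (Kp - min Kp Km) - p * (Kp - min Kp Km)) -
        (U' / Km * (Km - min Kp Km) - p' * (Km - min Kp Km))))) := by
    unfold pot dev
    rw [← hp, ← hp', hKpos, hKneg]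
    exact add_le_add le_rfl (min_le_left _ _)
  refine hleft.trans ?_
  simp only [Finset.sum_add_distrib, ← Finset.mul_sum] at hch
  rw [← hKp, ← hKm] at hch
  linarith

/-- The merging inequality. -/
theorem merge_le {ι : Type*} (I : Finset ι) (n n' m m' u u' A B : ι → ℝ)
    (hm : ∀ i ∈ I, 0 ≤ m i ∧ m i ≤ n i) (hm' : ∀ i ∈ I, 0 ≤ m' i ∧ m' i ≤ n' i)
    (hu : ∀ i ∈ I, 0 ≤ u i ∧ u i ≤ pos (n i - n' i))
    (hu' : ∀ i ∈ I, 0 ≤ u' i ∧ u' i ≤ pos (n' i - n i))
    (hfl : ∀ i ∈ I, A i - B i = (m i - m' i) - (u i - u' i))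
    {Kp Km : ℝ} (hKp : Kp = ∑ i ∈ I, pos (n i - n' i)) (hKm : Km = ∑ i ∈ I, pos (n' i - n i))
    {U U' : ℝ} (hU : U = ∑ i ∈ I, u i) (hU' : U' = ∑ i ∈ I, u' i) :
    pot (∑ i ∈ I, n i) (∑ i ∈ I, n' i) (∑ i ∈ I, m i) (∑ i ∈ I, m' i)
      (U / Kp * (Kp - min Kp Km)) (U' / Km * (Km - min Kp Km))
      (∑ i ∈ I, A i + min Kp Km * (U / Kp * (1 - U' / Km)))
      (∑ i ∈ I, B i + min Kp Km * ((1 - U / Kp) * (U' / Km))) ≤
    ∑ i ∈ I, pot (n i) (n' i) (m i) (m' i) (u i) (u' i) (A i) (B i) +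
      3 / 2 * ∑ i ∈ I, dst (n i) (n' i) (m i / n i - (∑ i ∈ I, m i) / (∑ i ∈ I, n i))
        (m' i / n' i - (∑ i ∈ I, m' i) / (∑ i ∈ I, n' i)) := by
  rcases le_total ((∑ i ∈ I, m' i) / (∑ i ∈ I, n' i)) ((∑ i ∈ I, m i) / (∑ i ∈ I, n i)) with h | h
  · exact merge_of_le I n n' m m' u u' A B hm hm' hu hu' hfl h hKp hKm hU hU'
  · have key := merge_of_le I n' n m' m u' u B A hm' hm hu' hu (fun i hi => by
      have := hfl i hi; linarith) h hKm hKp hU' hU
    have e1 : ∑ i ∈ I, pot (n' i) (n i) (m' i) (m i) (u' i) (u i) (B i) (A i) =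
        ∑ i ∈ I, pot (n i) (n' i) (m i) (m' i) (u i) (u' i) (A i) (B i) :=
      Finset.sum_congr rfl fun i _ => pot_symm _ _ _ _ _ _ _ _
    have e2 : ∑ i ∈ I, dst (n' i) (n i) (m' i / n' i - (∑ i ∈ I, m' i) / (∑ i ∈ I, n' i))
        (m i / n i - (∑ i ∈ I, m i) / (∑ i ∈ I, n i)) =
        ∑ i ∈ I, dst (n i) (n' i) (m i / n i - (∑ i ∈ I, m i) / (∑ i ∈ I, n i))
        (m' i / n' i - (∑ i ∈ I, m' i) / (∑ i ∈ I, n' i)) :=
      Finset.sum_congr rfl fun i _ => dst_symm _ _ _ _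
    rw [e1, e2, pot_symm, min_comm Km Kp, mul_comm (U' / Km) (1 - U / Kp),
      mul_comm (1 - U' / Km) (U / Kp)] at key
    exact key

end Pool.Agent.MP_12e089_an.LogS
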