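import Pool.Agent.MP_12e089_an.LogS.Lip

set_option linter.unusedSectionVars false

/-!
Random words of cuts and the logarithmic potential.
-/

namespace Pool.Agent.MP_12e089_an.LogS

open Finset

variable {M Ω : Type} [Fintype M] [DecidableEq M] [Fintype Ω] [DecidableEq Ω]

/-- The label of a point at level `J`. -/
def gJ (en : M → Ω → Bool) (J : Finset Ω) (v : M) : Ω → Bool := mask J (en v)

/-- The number of points in the cell of `x` (with `x`). -/
noncomputable def Nn (en : M → Ω → Bool) (R : M → ℝ) (J : Finset Ω) (x : M) : ℝ :=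
  cs (gJ en J) (gJ en J x) R + 1

/-- The mean distance from `x` to the points of its cell. -/
noncomputable def DD (en : M → Ω → Bool) (R : M → ℝ) (J : Finset Ω) (x : M) : ℝ :=
  ∑ ω, ot (gJ en J) R (ind en ω) x

/-- The points on the same side of `ω` as `x`. -/
def restr (en : M → Ω → Bool) (R : M → ℝ) (x : M) (ω : Ω) : M → ℝ :=
  fun v => if en v ω = en x ω then R v else 0

variable (en : M → Ω → Bool)

lemma restr_nonneg {R : M → ℝ} (hR : ∀ v, 0 ≤ R v) (x : M) (ω : Ω) (v : M) :
    0 ≤ restr en R x ω v := by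
  unfold restr
  split_ifs
  · exact hR v
  · exact le_rfl

lemma restr_sum_le {R : M → ℝ} (hR : ∀ v, 0 ≤ R v) (x : M) (ω : Ω) :
    ∑ v, restr en R x ω v ≤ ∑ v, R v :=
  Finset.sum_le_sum fun v _ => by
    unfold restr
    split_ifs
    · exact le_rfl
    · exact hR v

lemma cs_insert (J : Finset Ω) (ω : Ω) (x : M) (φ : M → ℝ) :
    cs (gJ en (insert ω J)) (gJ en (insert ω J) x) φ =
      cs (gJ en J) (gJ en J x) (fun v => if en v ω = en x ω then φ v else 0) := by
  unfold cs
  refine Finset.sum_congr rfl fun v _ => ?_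
  have h1 : gJ en (insert ω J) v = gJ en (insert ω J) x ↔
      (gJ en J v = gJ en J x ∧ en v ω = en x ω) := by
    unfold gJ
    rw [mask_eq_iff, mask_eq_iff]
    simp only [Finset.forall_mem_insert]
    tauto
  by_cases h2 : gJ en J v = gJ en J x
  · by_cases h3 : en v ω = en x ω
    · rw [if_pos (h1.2 ⟨h2, h3⟩), if_pos h2]
      exact (if_pos h3).symm
    · rw [if_neg (fun h => h3 (h1.1 h).2), if_pos h2]
      exact (if_neg h3).symm
  · rw [if_neg (fun h => h2 (h1.1 h).1), if_neg h2]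

lemma Nn_pos {R : M → ℝ} (hR : ∀ v, 0 ≤ R v) (J : Finset Ω) (x : M) : 1 ≤ Nn en R J x := by
  have := cs_nonneg (gJ en J) (gJ en J x) hR
  unfold Nn
  linarith

lemma ot_insert {R : M → ℝ} (hR : ∀ v, 0 ≤ R v) (J : Finset Ω) (ω : Ω) (x : M) :
    ot (gJ en J) R (ind en ω) x = 1 - Nn en R (insert ω J) x / Nn en R J x := by
  have h1 : cs (gJ en J) (gJ en J x) (fun v => R v * |ind en ω v - ind en ω x|) =
      cs (gJ en J) (gJ en J x) R -
      cs (gJ en J) (gJ en J x) (fun v => if en v ω = en x ω then R v else 0) := by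
    rw [← cs_sub]
    apply cs_congr
    intro v _
    unfold ind
    cases en v ω <;> cases en x ω <;> simp
  have h2 := Nn_pos en hR J x
  unfold ot
  rw [h1]
  unfold Nn at h2 ⊢
  rw [cs_insert]
  field_simp
  ring

lemma DD_nonneg {R : M → ℝ} (hR : ∀ v, 0 ≤ R v) (J : Finset Ω) (x : M) : 0 ≤ DD en R J x :=
  Finset.sum_nonneg fun _ _ => ot_nonneg _ hR _ _

lemma DD_le {R : M → ℝ} (hR : ∀ v, 0 ≤ R v) (J : Finset Ω) (x : M) :
    DD en R J x ≤ ∑ ω, (Real.log (Nn en R J x) - Real.log (Nn en R (insert ω J) x)) := by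
  unfold DD
  refine Finset.sum_le_sum fun ω _ => ?_
  rw [ot_insert en hR]
  have h1 := Nn_pos en hR J x
  have h2 := Nn_pos en hR (insert ω J) x
  have h3 := Real.log_le_sub_one_of_pos (x := Nn en R (insert ω J) x / Nn en R J x)
    (by positivity)
  rw [Real.log_div (by positivity) (by positivity)] at h3
  linarith

lemma DD_insert (R : M → ℝ) (J : Finset Ω) (ω : Ω) (x : M) :
    DD en R (insert ω J) x = DD en (restr en R x ω) J x := by
  unfold DD
  refine Finset.sum_congr rfl fun ω' _ => ?_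
  unfold ot
  rw [cs_insert, cs_insert]
  congr 1
  apply cs_congr
  intro v _
  unfold restr
  split_ifs
  · rfl
  · ring

/-! ### Words -/

/-- The set of the first `t` letters. -/
def Jw {K : ℕ} (w : Fin K → Ω) (t : ℕ) : Finset Ω :=
  (Finset.univ.filter (fun j : Fin K => (j : ℕ) < t)).image w

lemma mem_Jw {K : ℕ} {w : Fin K → Ω} {t : ℕ} {ω : Ω} :
    ω ∈ Jw w t ↔ ∃ j : Fin K, (j : ℕ) < t ∧ w j = ω := by
  unfold Jw
  simp

lemma Jw_zero {K : ℕ} (w : Fin K → Ω) : Jw w 0 = ∅ := by
  ext ω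
  simp [mem_Jw]

lemma Jw_mono {K : ℕ} (w : Fin K → Ω) : Monotone (Jw w) := by
  intro a b hab ω h
  rw [mem_Jw] at h ⊢
  obtain ⟨j, h1, h2⟩ := h
  exact ⟨j, by omega, h2⟩

lemma Jw_succ {K : ℕ} (w : Fin K → Ω) (j : Fin K) :
    Jw w ((j : ℕ) + 1) = insert (w j) (Jw w j) := by
  ext ω
  rw [Finset.mem_insert, mem_Jw, mem_Jw]
  constructor
  · rintro ⟨i, h1, h2⟩
    rcases Nat.lt_succ_iff_lt_or_eq.1 h1 with h | h
    · exact Or.inr ⟨i, h, h2⟩
    · left
      rw [← h2]
      congr 1
      exact Fin.ext h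
  · rintro (h | ⟨i, h1, h2⟩)
    · exact ⟨j, by omega, h.symm⟩
    · exact ⟨i, by omega, h2⟩

lemma Jw_update {K : ℕ} (w : Fin K → Ω) (j : Fin K) (ω : Ω) {t : ℕ} (ht : t ≤ j) :
    Jw (Function.update w j ω) t = Jw w t := by
  ext ω'
  rw [mem_Jw, mem_Jw]
  constructor
  · rintro ⟨i, h1, h2⟩
    have : i ≠ j := by intro h; subst h; omega
    rw [Function.update_of_ne this] at h2
    exact ⟨i, h1, h2⟩
  · rintro ⟨i, h1, h2⟩
    have : i ≠ j := by intro h; subst h; omega
    refine ⟨i, h1, ?_⟩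
    rw [Function.update_of_ne this]
    exact h2

/-- Averaging over one letter. -/
lemma sum_update {K : ℕ} (j : Fin K) (G : (Fin K → Ω) → ℝ) :
    ∑ w, ∑ ω, G (Function.update w j ω) = Fintype.card Ω * ∑ w, G w := by
  have inv : Function.Involutive (fun p : (Fin K → Ω) × Ω => (Function.update p.1 j p.2, p.1 j)) := by
    rintro ⟨w, ω⟩
    simp only [Function.update_self, Function.update_idem, Function.update_eq_self]
  calc ∑ w, ∑ ω, G (Function.update w j ω)
      = ∑ p : (Fin K → Ω) × Ω, G (Function.update p.1 j p.2) := by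
        rw [Fintype.sum_prod_type]
    _ = ∑ p : (Fin K → Ω) × Ω, G p.1 := by
        exact Equiv.sum_comp inv.toPerm (fun p : (Fin K → Ω) × Ω => G p.1)
    _ = Fintype.card Ω * ∑ w, G w := by
        rw [Fintype.sum_prod_type, Finset.mul_sum]
        refine Finset.sum_congr rfl fun w _ => ?_
        change ∑ _y : Ω, G w = _
        rw [Finset.sum_const, Finset.card_univ, nsmul_eq_mul]

lemma sum_step {K : ℕ} (j : Fin K) (h : Finset Ω → Ω → ℝ) :
    ∑ w : Fin K → Ω, ∑ ω, h (Jw w j) ω = Fintype.card Ω * ∑ w : Fin K → Ω, h (Jw w j) (w j) := by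
  rw [← sum_update j]
  refine Finset.sum_congr rfl fun w _ => Finset.sum_congr rfl fun ω _ => ?_
  rw [Jw_update w j ω le_rfl, Function.update_self]

/-- The potential argument. -/
theorem potential {K : ℕ} {R : M → ℝ} (hR : ∀ v, 0 ≤ R v) (x : M) :
    ∑ t ∈ Finset.range K, ∑ w : Fin K → Ω, DD en R (Jw w t) x ≤
      Fintype.card Ω * (Fintype.card (Fin K → Ω) * Real.log (∑ v, R v + 1)) := by
  have h1 : ∀ t ∈ Finset.range K, ∑ w : Fin K → Ω, DD en R (Jw w t) x ≤
      Fintype.card Ω * ∑ w : Fin K → Ω, (Real.log (Nn en R (Jw w t) x) -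
        Real.log (Nn en R (Jw w (t + 1)) x)) := by
    intro t ht
    have e : (t : ℕ) = ((⟨t, Finset.mem_range.1 ht⟩ : Fin K) : ℕ) := rfl
    set j : Fin K := ⟨t, Finset.mem_range.1 ht⟩ with hj
    have h2 := sum_step j (fun J ω => Real.log (Nn en R J x) - Real.log (Nn en R (insert ω J) x))
    have h3 : ∑ w : Fin K → Ω, DD en R (Jw w t) x ≤ ∑ w : Fin K → Ω, ∑ ω,
        (Real.log (Nn en R (Jw w j) x) - Real.log (Nn en R (insert ω (Jw w j)) x)) :=
      Finset.sum_le_sum fun w _ => DD_le en hR _ x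
    refine h3.trans (le_of_eq ?_)
    rw [h2]
    congr 1
    refine Finset.sum_congr rfl fun w _ => ?_
    have := Jw_succ w j
    rw [← this]
  refine (Finset.sum_le_sum h1).trans ?_
  rw [← Finset.mul_sum]
  apply mul_le_mul_of_nonneg_left _ (Nat.cast_nonneg _)
  rw [Finset.sum_comm]
  have h2 : ∀ w : Fin K → Ω, ∑ t ∈ Finset.range K, (Real.log (Nn en R (Jw w t) x) -
      Real.log (Nn en R (Jw w (t + 1)) x)) ≤ Real.log (∑ v, R v + 1) := by
    intro w
    have e1 := Finset.sum_range_sub' (fun t => Real.log (Nn en R (Jw w t) x)) K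
    rw [e1, Jw_zero]
    have e2 : Nn en R ∅ x = ∑ v, R v + 1 := by
      unfold Nn cs gJ
      simp only [mask_empty, if_true]
    rw [e2]
    have e3 : 0 ≤ Real.log (Nn en R (Jw w K) x) := Real.log_nonneg (Nn_pos en hR _ _)
    linarith
  refine (Finset.sum_le_sum fun w _ => h2 w).trans ?_
  rw [Finset.sum_const, Finset.card_univ, nsmul_eq_mul]

/-- The cuts that separate `x` and `y`. -/
def sepS (x y : M) : Finset Ω := Finset.univ.filter (fun ω => en x ω ≠ en y ω)

lemma mem_sepS {x y : M} {ω : Ω} : ω ∈ sepS en x y ↔ en x ω ≠ en y ω := by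
  simp [sepS]

/-- `H t`. -/
noncomputable def HH (K : ℕ) (R : M → ℝ) (x y : M) (t : ℕ) : ℝ :=
  ∑ ω ∈ sepS en x y, ∑ w : Fin K → Ω, DD en (restr en R x ω) (Jw w t) x

lemma HH_nonneg {K : ℕ} {R : M → ℝ} (hR : ∀ v, 0 ≤ R v) (x y : M) (t : ℕ) :
    0 ≤ HH en K R x y t :=
  Finset.sum_nonneg fun _ _ => Finset.sum_nonneg fun _ _ => DD_nonneg en (restr_nonneg en hR _ _) _ _

lemma HH_sum {K : ℕ} {R : M → ℝ} (hR : ∀ v, 0 ≤ R v) (x y : M) :
    ∑ t ∈ Finset.range K, HH en K R x y t ≤ (sepS en x y).card *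
      (Fintype.card Ω * (Fintype.card (Fin K → Ω) * Real.log (∑ v, R v + 1))) := by
  unfold HH
  rw [Finset.sum_comm]
  have h1 : ∀ ω ∈ sepS en x y, ∑ t ∈ Finset.range K, ∑ w : Fin K → Ω,
      DD en (restr en R x ω) (Jw w t) x ≤
      Fintype.card Ω * (Fintype.card (Fin K → Ω) * Real.log (∑ v, R v + 1)) := by
    intro ω _
    refine (potential en (restr_nonneg en hR x ω) x).trans ?_
    apply mul_le_mul_of_nonneg_left _ (Nat.cast_nonneg _)
    apply mul_le_mul_of_nonneg_left _ (Nat.cast_nonneg _)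
    apply Real.log_le_log
    · have : 0 ≤ ∑ v, restr en R x ω v := Finset.sum_nonneg fun v _ => restr_nonneg en hR x ω v
      linarith
    · have := restr_sum_le en hR x ω
      linarith
  refine (Finset.sum_le_sum h1).trans (le_of_eq ?_)
  rw [Finset.sum_const, nsmul_eq_mul]

/-- `x` and `y` are separated at level `J`. -/
def Sep (x y : M) (J : Finset Ω) : Prop := ∃ ω ∈ J, en x ω ≠ en y ω

instance (x y : M) (J : Finset Ω) : Decidable (Sep en x y J) :=
  inferInstanceAs (Decidable (∃ ω ∈ J, en x ω ≠ en y ω))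

lemma not_sep {x y : M} {J : Finset Ω} (h : ¬ Sep en x y J) : gJ en J x = gJ en J y := by
  unfold Sep at h
  push Not at h
  exact mask_eq_iff.2 h

lemma swap_word {K : ℕ} (i j : Fin K) {l : ℕ} (hi : (i : ℕ) < l) (hj : (j : ℕ) < l)
    (w : Fin K → Ω) : Jw (fun k => w (Equiv.swap i j k)) l = Jw w l := by
  have key : ∀ k : Fin K, (k : ℕ) < l → ((Equiv.swap i j k : Fin K) : ℕ) < l := by
    intro k hk
    rcases eq_or_ne k i with h | h
    · subst h; rw [Equiv.swap_apply_left]; exact hj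
    · rcases eq_or_ne k j with h' | h'
      · subst h'; rw [Equiv.swap_apply_right]; exact hi
      · rw [Equiv.swap_apply_of_ne_of_ne h h']; exact hk
  ext ω
  rw [mem_Jw, mem_Jw]
  constructor
  · rintro ⟨k, h1, h2⟩
    exact ⟨_, key k h1, h2⟩
  · rintro ⟨k, h1, h2⟩
    refine ⟨Equiv.swap i j k, key k h1, ?_⟩
    rw [Equiv.swap_apply_self]
    exact h2

/-- A letter that separates, in position `j`, with a function of `J_l`, `j < l`. -/
lemma sum_letter_lt {K : ℕ} {R : M → ℝ} (x y : M) (i : Fin K) (j : Fin K) (hij : (i : ℕ) ≤ j) :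
    Fintype.card Ω * ∑ w : Fin K → Ω,
      (if w i ∈ sepS en x y then DD en R (Jw w ((j : ℕ) + 1)) x else 0) = HH en K R x y j := by
  have h1 : ∑ w : Fin K → Ω, (if w i ∈ sepS en x y then DD en R (Jw w ((j : ℕ) + 1)) x else 0) =
      ∑ w : Fin K → Ω, (if w j ∈ sepS en x y then DD en R (Jw w ((j : ℕ) + 1)) x else 0) := by
    rw [← Equiv.sum_comp (Equiv.arrowCongr (Equiv.swap i j) (Equiv.refl Ω))]
    refine Finset.sum_congr rfl fun w _ => ?_
    have e1 : (Equiv.arrowCongr (Equiv.swap i j) (Equiv.refl Ω)) w =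
        fun k => w (Equiv.swap i j k) := by
      funext k
      simp [Equiv.arrowCongr]
    rw [e1, swap_word i j (by omega) (by omega)]
    simp only [Equiv.swap_apply_left]
  rw [h1]
  have h2 := sum_step (K := K) j (fun J ω => if ω ∈ sepS en x y then DD en R (insert ω J) x else 0)
  have h3 : ∑ w : Fin K → Ω, (if w j ∈ sepS en x y then DD en R (Jw w ((j : ℕ) + 1)) x else 0) =
      ∑ w : Fin K → Ω, (if w j ∈ sepS en x y then DD en R (insert (w j) (Jw w j)) x else 0) := by
    refine Finset.sum_congr rfl fun w _ => ?_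
    rw [Jw_succ]
  rw [h3, ← h2]
  unfold HH
  rw [Finset.sum_comm (s := sepS en x y)]
  refine Finset.sum_congr rfl fun w _ => ?_
  rw [← Finset.sum_filter]
  have e2 : Finset.univ.filter (fun ω => ω ∈ sepS en x y) = sepS en x y := by
    ext ω; simp
  rw [e2]
  refine Finset.sum_congr rfl fun ω _ => ?_
  rw [DD_insert]

/-- A letter that separates, in position `j`, with a function of `J_t`, `t ≤ j`. -/
lemma sum_letter_ge {K : ℕ} {R : M → ℝ} (x y : M) (j : Fin K) {t : ℕ} (ht : t ≤ j) :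
    Fintype.card Ω * ∑ w : Fin K → Ω, (if w j ∈ sepS en x y then DD en R (Jw w t) x else 0) =
      (sepS en x y).card * ∑ w : Fin K → Ω, DD en R (Jw w t) x := by
  rw [← sum_update j, Finset.mul_sum]
  refine Finset.sum_congr rfl fun w _ => ?_
  simp only [Function.update_self, Jw_update w j _ ht]
  rw [← Finset.sum_filter]
  have e2 : Finset.univ.filter (fun ω => ω ∈ sepS en x y) = sepS en x y := by
    ext ω; simp
  rw [e2, Finset.sum_const, nsmul_eq_mul]

lemma sep_le_sum {K : ℕ} (x y : M) (w : Fin K → Ω) (l : ℕ) {a : ℝ} (ha : 0 ≤ a) :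
    (if Sep en x y (Jw w l) then a else 0) ≤
      ∑ j : Fin K, (if (j : ℕ) < l then (if w j ∈ sepS en x y then a else 0) else 0) := by
  have hnn : ∀ j ∈ (Finset.univ : Finset (Fin K)),
      0 ≤ (if (j : ℕ) < l then (if w j ∈ sepS en x y then a else 0) else 0) := by
    intro j _
    split_ifs <;> simp [ha]
  split_ifs with h
  · obtain ⟨ω, hω, hne⟩ := h
    obtain ⟨j, hj, rfl⟩ := mem_Jw.1 hω
    have h1 := Finset.single_le_sum hnn (Finset.mem_univ j)
    rw [if_pos hj, if_pos ((mem_sepS en).2 hne)] at h1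
    exact h1
  · exact Finset.sum_nonneg hnn

/-- The Palm estimate. -/
theorem palm {K : ℕ} {R : M → ℝ} (hR : ∀ v, 0 ≤ R v) (x y : M) {l : ℕ} (hl : l ≤ K) :
    Fintype.card Ω * ∑ w : Fin K → Ω, (if Sep en x y (Jw w l) then DD en R (Jw w l) x else 0) ≤
      l * HH en K R x y (l - 1) := by
  rcases Nat.eq_zero_or_pos l with h0 | h0
  · subst h0
    have : ∀ w : Fin K → Ω, (if Sep en x y (Jw w 0) then DD en R (Jw w 0) x else 0) = 0 := by
      intro w
      rw [if_neg]
      rintro ⟨ω, hω, -⟩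
      rw [Jw_zero] at hω
      simp at hω
    simp [this]
  · obtain ⟨p, rfl⟩ : ∃ p, l = p + 1 := ⟨l - 1, by omega⟩
    set last : Fin K := ⟨p, by omega⟩ with hlast
    have h1 : ∑ w : Fin K → Ω, (if Sep en x y (Jw w (p + 1)) then DD en R (Jw w (p + 1)) x else 0) ≤
        ∑ j : Fin K, (if (j : ℕ) < p + 1 then
          ∑ w : Fin K → Ω, (if w j ∈ sepS en x y then DD en R (Jw w (p + 1)) x else 0) else 0) := by
      refine (Finset.sum_le_sum fun w _ => sep_le_sum en x y w (p + 1)
        (DD_nonneg en hR (Jw w (p + 1)) x)).trans (le_of_eq ?_)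
      rw [Finset.sum_comm]
      refine Finset.sum_congr rfl fun j _ => ?_
      split_ifs <;> simp
    refine (mul_le_mul_of_nonneg_left h1 (Nat.cast_nonneg _)).trans ?_
    rw [Finset.mul_sum]
    have h2 : ∀ j : Fin K, (Fintype.card Ω : ℝ) * (if (j : ℕ) < p + 1 then
          ∑ w : Fin K → Ω, (if w j ∈ sepS en x y then DD en R (Jw w (p + 1)) x else 0) else 0) =
        if (j : ℕ) < p + 1 then HH en K R x y p else 0 := by
      intro j
      split_ifs with hj
      · exact sum_letter_lt en x y j last (by simp [hlast]; omega)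
      · simp
    rw [Finset.sum_congr rfl fun j _ => h2 j, ← Finset.sum_filter, Finset.sum_const, nsmul_eq_mul]
    have h3 : (Finset.univ.filter (fun j : Fin K => (j : ℕ) < p + 1)).card = p + 1 := by
      have e1 : (Finset.univ.filter (fun j : Fin K => (j : ℕ) < p + 1)).map Fin.valEmbedding =
          Finset.range (p + 1) := by
        ext t
        simp only [Finset.mem_map, Finset.mem_filter, Finset.mem_univ, true_and,
          Fin.valEmbedding_apply, Finset.mem_range]
        constructor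
        · rintro ⟨j, h, rfl⟩; exact h
        · intro h; exact ⟨⟨t, by omega⟩, h, rfl⟩
      rw [← Finset.card_map Fin.valEmbedding, e1, Finset.card_range]
    rw [h3, Nat.add_sub_cancel]

/-- The second Palm estimate. -/
theorem palm2 {K : ℕ} {R : M → ℝ} (hR : ∀ v, 0 ≤ R v) (x y : M) {l' l : ℕ} (hll : l' ≤ l)
    (hl : l ≤ K) :
    Fintype.card Ω * ∑ w : Fin K → Ω, (if Sep en x y (Jw w l) then DD en R (Jw w l') x else 0) ≤
      l' * HH en K R x y (l' - 1) + ((l - l' : ℕ) : ℝ) * ((sepS en x y).card *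
        ∑ w : Fin K → Ω, DD en R (Jw w l') x) := by
  have h0 : ∀ w : Fin K → Ω, (if Sep en x y (Jw w l) then DD en R (Jw w l') x else 0) ≤
      (if Sep en x y (Jw w l') then DD en R (Jw w l') x else 0) +
      ∑ j : Fin K, (if l' ≤ (j : ℕ) ∧ (j : ℕ) < l then
        (if w j ∈ sepS en x y then DD en R (Jw w l') x else 0) else 0) := by
    intro w
    have hD := DD_nonneg en hR (Jw w l') x
    have hnn : ∀ j ∈ (Finset.univ : Finset (Fin K)),
        0 ≤ (if l' ≤ (j : ℕ) ∧ (j : ℕ) < l then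
          (if w j ∈ sepS en x y then DD en R (Jw w l') x else 0) else 0) := by
      intro j _
      split_ifs <;> simp [hD]
    by_cases h1 : Sep en x y (Jw w l)
    · rw [if_pos h1]
      by_cases h2 : Sep en x y (Jw w l')
      · rw [if_pos h2]
        have := Finset.sum_nonneg hnn
        linarith
      · rw [if_neg h2, zero_add]
        obtain ⟨ω, hω, hne⟩ := h1
        obtain ⟨j, hj, rfl⟩ := mem_Jw.1 hω
        have hj' : l' ≤ (j : ℕ) := by
          by_contra hcon
          push Not at hcon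
          exact h2 ⟨w j, mem_Jw.2 ⟨j, hcon, rfl⟩, hne⟩
        have h3 := Finset.single_le_sum hnn (Finset.mem_univ j)
        rw [if_pos ⟨hj', hj⟩, if_pos ((mem_sepS en).2 hne)] at h3
        exact h3
    · rw [if_neg h1]
      apply add_nonneg
      · split_ifs <;> simp [hD]
      · exact Finset.sum_nonneg hnn
  have h1 : ∑ w : Fin K → Ω, (if Sep en x y (Jw w l) then DD en R (Jw w l') x else 0) ≤
      ∑ w : Fin K → Ω, (if Sep en x y (Jw w l') then DD en R (Jw w l') x else 0) +
      ∑ j : Fin K, (if l' ≤ (j : ℕ) ∧ (j : ℕ) < l then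
        ∑ w : Fin K → Ω, (if w j ∈ sepS en x y then DD en R (Jw w l') x else 0) else 0) := by
    refine (Finset.sum_le_sum fun w _ => h0 w).trans (le_of_eq ?_)
    rw [Finset.sum_add_distrib]
    congr 1
    rw [Finset.sum_comm]
    refine Finset.sum_congr rfl fun j _ => ?_
    split_ifs <;> simp
  refine (mul_le_mul_of_nonneg_left h1 (Nat.cast_nonneg _)).trans ?_
  rw [mul_add]
  apply add_le_add (palm en hR x y (hll.trans hl))
  rw [Finset.mul_sum]
  have h2 : ∀ j : Fin K, (Fintype.card Ω : ℝ) * (if l' ≤ (j : ℕ) ∧ (j : ℕ) < l then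
      ∑ w : Fin K → Ω, (if w j ∈ sepS en x y then DD en R (Jw w l') x else 0) else 0) =
      if l' ≤ (j : ℕ) ∧ (j : ℕ) < l then ((sepS en x y).card : ℝ) *
        ∑ w : Fin K → Ω, DD en R (Jw w l') x else 0 := by
    intro j
    split_ifs with hj
    · exact sum_letter_ge en x y j hj.1
    · simp
  rw [Finset.sum_congr rfl fun j _ => h2 j, ← Finset.sum_filter, Finset.sum_const, nsmul_eq_mul]
  have h3 : (Finset.univ.filter (fun j : Fin K => l' ≤ (j : ℕ) ∧ (j : ℕ) < l)).card = l - l' := by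
    have e1 : (Finset.univ.filter (fun j : Fin K => l' ≤ (j : ℕ) ∧ (j : ℕ) < l)).map
        Fin.valEmbedding = Finset.Ico l' l := by
      ext t
      simp only [Finset.mem_map, Finset.mem_filter, Finset.mem_univ, true_and,
        Fin.valEmbedding_apply, Finset.mem_Ico]
      constructor
      · rintro ⟨j, h, rfl⟩; exact h
      · intro h; exact ⟨⟨t, by omega⟩, h, rfl⟩
    rw [← Finset.card_map Fin.valEmbedding, e1, Nat.card_Ico]
  rw [h3]

end Pool.Agent.MP_12e089_an.LogS
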